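import Pool.Agent.N303.LS.Stm

/-!
# Project LS (helper303): the final inequality
-/

set_option autoImplicit false

namespace Pool.Agent.N303.LS

open MeasureTheory
open scoped ENNReal FourierTransform RealInnerProductSpace SchwartzMap

/-- the solution of the wave equation with data whose Fourier transforms are `F₀`, `F₁` -/
noncomputable def wave {d : ℕ} (F₀ F₁ : E d → ℂ) (t : ℝ) (x : E d) : ℂ :=
  inv (fun ξ => cs t ξ * F₀ ξ + sn t ξ * F₁ ξ) x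

/-- `∑_i ± ψ_i` -/
noncomputable def rnd {d : ℕ} {ι : Type} [Fintype ι] (K : 𝓢(E d, ℂ)) (A : ι → Finset (Fin d → ℤ))
    (ε : ι → Bool) (ξ : E d) : ℂ :=
  ∑ i, (if ε i then psi K (A i) ξ else - psi K (A i) ξ)

lemma khi_enn (h : S_KHI) (p : ℝ) (hp : 2 ≤ p) : ∃ C : ℝ, 0 < C ∧
    ∀ (ι : Type) [Fintype ι] [DecidableEq ι] (a : ι → ℂ),
    ∑ ε : ι → Bool, ‖∑ i, (if ε i then a i else - a i)‖ₑ ^ p ≤
      ENNReal.ofReal (C * 2 ^ Fintype.card ι) * (∑ i, ‖a i‖ₑ ^ (2 : ℝ)) ^ (p / 2) := by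
  obtain ⟨C, hC, h1⟩ := h p hp
  refine ⟨C, hC, fun ι _ _ a => ?_⟩
  have h2 := h1 ι a
  have e1 : ∀ z : ℂ, ‖z‖ₑ ^ p = ENNReal.ofReal (‖z‖ ^ p) := fun z => by
    rw [← ofReal_norm_eq_enorm, ENNReal.ofReal_rpow_of_nonneg (norm_nonneg _) (by linarith)]
  have e2 : ∀ z : ℂ, ‖z‖ₑ ^ (2 : ℝ) = ENNReal.ofReal (‖z‖ ^ 2) := fun z => by
    rw [← ofReal_norm_eq_enorm, ENNReal.ofReal_rpow_of_nonneg (norm_nonneg _) (by norm_num),
      Real.rpow_two]
  simp only [e1, e2]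
  rw [← ENNReal.ofReal_sum_of_nonneg fun _ _ => by positivity,
    ← ENNReal.ofReal_sum_of_nonneg fun _ _ => by positivity,
    ENNReal.ofReal_rpow_of_nonneg (Finset.sum_nonneg fun _ _ => by positivity) (by linarith),
    ← ENNReal.ofReal_mul (by positivity)]
  exact ENNReal.ofReal_le_ofReal h2

lemma sym_le {d : ℕ} (k : Fin d ⊕ Bool) (t : ℝ) (h0 : 0 ≤ t) (h2 : t ≤ 2) (ξ : E d) :
    ‖sym k t ξ‖ ≤ 2 := by
  have hs : ∀ t : ℝ, 0 ≤ t → ‖(sn t ξ : ℂ)‖ ≤ t := by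
    intro t ht
    unfold sn
    rw [Complex.norm_real, Real.norm_eq_abs, abs_div]
    rcases eq_or_ne ‖ξ‖ 0 with h | h
    · simp [h, ht]
    · have hpos : 0 < ‖ξ‖ := lt_of_le_of_ne (norm_nonneg _) (Ne.symm h)
      rw [div_le_iff₀ (abs_pos.2 (by positivity))]
      calc |Real.sin (2 * Real.pi * t * ‖ξ‖)| ≤ |2 * Real.pi * t * ‖ξ‖| := Real.abs_sin_le_abs
        _ = t * |2 * Real.pi * ‖ξ‖| := by
          rw [abs_of_nonneg (by positivity), abs_of_nonneg (by positivity)]; ring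
  match k with
  | Sum.inl j =>
    show ‖((2 * Real.pi * ξ j : ℝ) : ℂ) * Complex.I * sn t ξ‖ ≤ 2
    rw [norm_mul, norm_mul, Complex.norm_I, mul_one, Complex.norm_real]
    unfold sn
    rw [Complex.norm_real, Real.norm_eq_abs, Real.norm_eq_abs, ← abs_mul]
    have hj : |ξ j| ≤ ‖ξ‖ := by
      have := EuclideanSpace.norm_eq ξ
      rw [this]
      refine Real.abs_le_sqrt ?_
      calc ξ j ^ 2 = ‖ξ j‖ ^ 2 := by rw [Real.norm_eq_abs, sq_abs]
        _ ≤ ∑ i, ‖ξ i‖ ^ 2 := Finset.single_le_sum (f := fun i => ‖ξ i‖ ^ 2)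
            (fun _ _ => by positivity) (Finset.mem_univ j)
    rcases eq_or_ne ‖ξ‖ 0 with h | h
    · simp [h]
    · have hpos : 0 < ‖ξ‖ := lt_of_le_of_ne (norm_nonneg _) (Ne.symm h)
      rw [mul_div_assoc', abs_div, div_le_iff₀ (by positivity), abs_mul, abs_mul,
        abs_of_nonneg (show (0 : ℝ) ≤ 2 * Real.pi by positivity),
        abs_of_nonneg (show (0 : ℝ) ≤ 2 * Real.pi * ‖ξ‖ by positivity)]
      have h3 := Real.abs_sin_le_one (2 * Real.pi * t * ‖ξ‖)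
      calc 2 * Real.pi * |ξ j| * |Real.sin (2 * Real.pi * t * ‖ξ‖)|
          ≤ 2 * Real.pi * ‖ξ‖ * 1 := by gcongr
        _ ≤ 2 * (2 * Real.pi * ‖ξ‖) := by nlinarith [Real.pi_pos, mul_pos Real.pi_pos hpos]
  | Sum.inr true =>
    show ‖cs t ξ‖ ≤ 2
    unfold cs
    rw [Complex.norm_real, Real.norm_eq_abs]
    exact (Real.abs_cos_le_one _).trans (by norm_num)
  | Sum.inr false => exact (hs t h0).trans h2

lemma sym_meas {d : ℕ} (k : Fin d ⊕ Bool) (t : ℝ) : Measurable (sym k t : E d → ℂ) := by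
  have hs : Measurable (sn t : E d → ℂ) := by
    unfold sn
    refine Complex.measurable_ofReal.comp ?_
    fun_prop
  match k with
  | Sum.inl j =>
    show Measurable fun ξ : E d => ((2 * Real.pi * ξ j : ℝ) : ℂ) * Complex.I * sn t ξ
    refine Measurable.mul ?_ hs
    fun_prop
  | Sum.inr true =>
    show Measurable fun ξ : E d => cs t ξ
    unfold cs
    fun_prop
  | Sum.inr false => exact hs

lemma sym_int {d : ℕ} (k : Fin d ⊕ Bool) (t : ℝ) (h0 : 0 ≤ t) (h2 : t ≤ 2) (g : 𝓢(E d, ℂ)) :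
    Integrable fun ξ => sym k t ξ * 𝓕 (g : E d → ℂ) ξ := by
  have hg : Integrable (𝓕 (g : E d → ℂ)) := by
    have h := (𝓕 g : 𝓢(E d, ℂ)).integrable (μ := volume)
    rwa [SchwartzMap.fourier_coe] at h
  refine (hg.norm.const_mul 2).mono' ((sym_meas k t).aestronglyMeasurable.mul hg.1) ?_
  refine Filter.Eventually.of_forall fun ξ => ?_
  rw [norm_mul]
  exact mul_le_mul_of_nonneg_right (sym_le k t h0 h2 ξ) (norm_nonneg _)

lemma psi_int {d : ℕ} (K : 𝓢(E d, ℂ)) (A : Finset (Fin d → ℤ)) (F : E d → ℂ) (hF : Integrable F) :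
    Integrable fun ξ => psi K A ξ * F ξ := by
  have hc : Continuous (𝓕 (K : E d → ℂ)) := by
    have h := (𝓕 K : 𝓢(E d, ℂ)).continuous
    rwa [SchwartzMap.fourier_coe] at h
  have hb : ∀ ξ, ‖𝓕 (K : E d → ℂ) ξ‖ ≤ ∫ x, ‖K x‖ := fun ξ =>
    VectorFourier.norm_fourierIntegral_le_integral_norm _ _ _ _ _
  have hpc : Continuous (psi K A) := by
    unfold psi
    exact continuous_finset_sum _ fun m _ => hc.comp (continuous_id.sub continuous_const)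
  refine (hF.norm.const_mul (A.card * ∫ x, ‖K x‖)).mono' (hpc.aestronglyMeasurable.mul hF.1) ?_
  refine Filter.Eventually.of_forall fun ξ => ?_
  rw [norm_mul]
  refine mul_le_mul_of_nonneg_right ?_ (norm_nonneg _)
  unfold psi
  refine (norm_sum_le _ _).trans ((Finset.sum_le_sum fun m _ => hb _).trans ?_)
  rw [Finset.sum_const, nsmul_eq_mul]

lemma inv_sum {d : ℕ} {κ : Type} (s : Finset κ) (F : κ → E d → ℂ) (h : ∀ i ∈ s, Integrable (F i))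
    (x : E d) : inv (fun ξ => ∑ i ∈ s, F i ξ) x = ∑ i ∈ s, inv (F i) x := by
  unfold inv
  rw [← integral_finset_sum]
  · refine integral_congr_ae (Filter.Eventually.of_forall fun ξ => ?_)
    exact Finset.mul_sum _ _ _
  · intro i hi
    have h1 := h i hi
    refine h1.norm.mono' ?_ ?_
    · refine AEStronglyMeasurable.mul ?_ h1.1
      refine Continuous.aestronglyMeasurable ?_
      fun_prop
    · refine Filter.Eventually.of_forall fun ξ => ?_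
      rw [norm_mul, Complex.norm_exp_ofReal_mul_I, one_mul]

lemma inv_neg {d : ℕ} (F : E d → ℂ) (x : E d) : inv (fun ξ => - F ξ) x = - inv F x := by
  unfold inv
  rw [← integral_neg]
  congr 1
  funext ξ
  ring

/-- the functions which generate the data -/
def gen {d : ℕ} (f₀ g₀ : 𝓢(E d, ℂ)) (g : Fin d → 𝓢(E d, ℂ)) : Fin d ⊕ Bool → 𝓢(E d, ℂ)
  | Sum.inl j => g j
  | Sum.inr true => f₀
  | Sum.inr false => g₀

lemma wave_eq {d : ℕ} {ι : Type} [Fintype ι] (K : 𝓢(E d, ℂ)) (A : ι → Finset (Fin d → ℤ))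
    (ε : ι → Bool) (f₀ f₁ g₀ : 𝓢(E d, ℂ)) (g : Fin d → 𝓢(E d, ℂ))
    (hf : ∀ ξ, 𝓕 (f₁ : E d → ℂ) ξ = 𝓕 (g₀ : E d → ℂ) ξ +
      ∑ j, ((2 * Real.pi * ξ j : ℝ) : ℂ) * Complex.I * 𝓕 (g j : E d → ℂ) ξ)
    (t : ℝ) (h0 : 0 ≤ t) (h2 : t ≤ 2) (x : E d) :
    wave (fun ξ => rnd K A ε ξ * 𝓕 (f₀ : E d → ℂ) ξ) (fun ξ => rnd K A ε ξ * 𝓕 (f₁ : E d → ℂ) ξ) t x =
      ∑ k : Fin d ⊕ Bool, ∑ i, (if ε i then
        inv (fun ξ => psi K (A i) ξ * (sym k t ξ * 𝓕 (gen f₀ g₀ g k : E d → ℂ) ξ)) x else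
        - inv (fun ξ => psi K (A i) ξ * (sym k t ξ * 𝓕 (gen f₀ g₀ g k : E d → ℂ) ξ)) x) := by
  have e1 : ∀ (k : Fin d ⊕ Bool) (i : ι), (if ε i then
        inv (fun ξ => psi K (A i) ξ * (sym k t ξ * 𝓕 (gen f₀ g₀ g k : E d → ℂ) ξ)) x else
        - inv (fun ξ => psi K (A i) ξ * (sym k t ξ * 𝓕 (gen f₀ g₀ g k : E d → ℂ) ξ)) x) =
      inv (fun ξ => (if ε i then psi K (A i) ξ else - psi K (A i) ξ) *
        (sym k t ξ * 𝓕 (gen f₀ g₀ g k : E d → ℂ) ξ)) x := by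
    intro k i
    by_cases h : ε i = true
    · simp only [h, if_true]
    · simp only [h, if_false, Bool.false_eq_true]
      rw [← inv_neg]
      congr 1
      funext ξ
      ring
  have hint : ∀ (k : Fin d ⊕ Bool) (i : ι), Integrable (fun ξ =>
      (if ε i then psi K (A i) ξ else - psi K (A i) ξ) *
        (sym k t ξ * 𝓕 (gen f₀ g₀ g k : E d → ℂ) ξ)) := by
    intro k i
    have h1 := psi_int K (A i) _ (sym_int k t h0 h2 (gen f₀ g₀ g k))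
    by_cases h : ε i = true
    · simp only [h, if_true]
      exact h1
    · simp only [h, if_false, Bool.false_eq_true]
      refine h1.neg.congr (Filter.Eventually.of_forall fun ξ => ?_)
      show -(_ * _) = _
      ring
  simp only [e1]
  have e2 : ∀ k : Fin d ⊕ Bool, ∑ i, inv (fun ξ =>
      (if ε i then psi K (A i) ξ else - psi K (A i) ξ) *
        (sym k t ξ * 𝓕 (gen f₀ g₀ g k : E d → ℂ) ξ)) x = inv (fun ξ => ∑ i,
      (if ε i then psi K (A i) ξ else - psi K (A i) ξ) *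
        (sym k t ξ * 𝓕 (gen f₀ g₀ g k : E d → ℂ) ξ)) x := fun k =>
    (inv_sum _ _ (fun i _ => hint k i) x).symm
  simp only [e2]
  rw [← inv_sum Finset.univ _ (fun k _ => integrable_finset_sum _ fun i _ => hint k i)]
  unfold wave
  congr 1
  funext ξ
  have e3 : ∀ k : Fin d ⊕ Bool, ∑ i, (if ε i then psi K (A i) ξ else - psi K (A i) ξ) *
        (sym k t ξ * 𝓕 (gen f₀ g₀ g k : E d → ℂ) ξ) =
      rnd K A ε ξ * (sym k t ξ * 𝓕 (gen f₀ g₀ g k : E d → ℂ) ξ) := fun k => by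
    unfold rnd
    rw [Finset.sum_mul]
  simp only [e3]
  rw [← Finset.mul_sum, Fintype.sum_sum_type, Fintype.sum_bool, hf ξ]
  simp only [sym, gen]
  have e4 : ∑ j, ((2 * Real.pi * ξ j : ℝ) : ℂ) * Complex.I * sn t ξ * 𝓕 (g j : E d → ℂ) ξ =
      sn t ξ * ∑ j, ((2 * Real.pi * ξ j : ℝ) : ℂ) * Complex.I * 𝓕 (g j : E d → ℂ) ξ := by
    rw [Finset.mul_sum]
    refine Finset.sum_congr rfl fun j _ => ?_
    ring
  rw [e4]
  ring

lemma fourier_gen {d : ℕ} (f₁ g₀ : 𝓢(E d, ℂ)) (g : Fin d → 𝓢(E d, ℂ))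
    (hf : ∀ x, f₁ x = g₀ x + ∑ j, lineDeriv ℝ (g j) x (EuclideanSpace.single j (1 : ℝ))) (ξ : E d) :
    𝓕 (f₁ : E d → ℂ) ξ = 𝓕 (g₀ : E d → ℂ) ξ +
      ∑ j, ((2 * Real.pi * ξ j : ℝ) : ℂ) * Complex.I * 𝓕 (g j : E d → ℂ) ξ := by
  have e : f₁ = g₀ + ∑ j, LineDeriv.lineDerivOp (EuclideanSpace.single j (1 : ℝ)) (g j) := by
    ext x
    rw [hf x]
    simp [SchwartzMap.lineDerivOp_apply]
  have e2 : (𝓕 f₁ : 𝓢(E d, ℂ)) = 𝓕 g₀ + ∑ j, 𝓕 (LineDeriv.lineDerivOp (EuclideanSpace.single j (1 : ℝ)) (g j)) := by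
    rw [e]
    simp [FourierTransform.fourier_add, FourierTransform.fourier_sum]
  have e3 : 𝓕 (f₁ : E d → ℂ) ξ = (𝓕 f₁ : 𝓢(E d, ℂ)) ξ := by rw [SchwartzMap.fourier_coe]
  rw [e3, e2]
  simp only [add_apply, sum_apply, SchwartzMap.fourier_lineDerivOp_eq]
  rw [SchwartzMap.fourier_coe]
  congr 1
  refine Finset.sum_congr rfl fun j _ => ?_
  have ht : (fun x : E d => inner ℝ x (EuclideanSpace.single j (1 : ℝ))).HasTemperateGrowth :=
    ((innerSL ℝ).flip (EuclideanSpace.single j (1 : ℝ))).hasTemperateGrowth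
  simp only [smul_apply, SchwartzMap.smulLeftCLM_apply_apply ht]
  rw [SchwartzMap.fourier_coe]
  have h3 : inner ℝ ξ (EuclideanSpace.single j (1 : ℝ)) = ξ j := by
    simp [EuclideanSpace.inner_single_right]
  rw [h3, smul_eq_mul, Complex.real_smul]
  push_cast
  ring

lemma inv_cont {d : ℕ} (F : E d → ℂ) (h : Integrable F) : Continuous (inv F) := by
  unfold inv
  refine continuous_of_dominated (bound := fun ξ => ‖F ξ‖) ?_ ?_ h.norm ?_
  · intro x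
    refine AEStronglyMeasurable.mul ?_ h.1
    refine Continuous.aestronglyMeasurable ?_
    fun_prop
  · intro x
    refine Filter.Eventually.of_forall fun ξ => ?_
    rw [norm_mul, Complex.norm_exp_ofReal_mul_I, one_mul]
  · refine Filter.Eventually.of_forall fun ξ => ?_
    fun_prop

lemma pow_sum {κ : Type} (p : ℝ) (hp : 1 ≤ p) (s : Finset κ) (b : κ → ℂ) :
    ‖∑ k ∈ s, b k‖ₑ ^ p ≤ ENNReal.ofReal ((s.card : ℝ) ^ (p - 1)) * ∑ k ∈ s, ‖b k‖ₑ ^ p := by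
  have e1 : ∀ z : ℂ, ‖z‖ₑ ^ p = ENNReal.ofReal (‖z‖ ^ p) := fun z => by
    rw [← ofReal_norm_eq_enorm, ENNReal.ofReal_rpow_of_nonneg (norm_nonneg _) (by linarith)]
  simp only [e1]
  rw [← ENNReal.ofReal_sum_of_nonneg fun _ _ => by positivity, ← ENNReal.ofReal_mul (by positivity)]
  refine ENNReal.ofReal_le_ofReal ?_
  exact (Real.rpow_le_rpow (norm_nonneg _) (norm_sum_le _ _) (by linarith)).trans
    (Real.rpow_sum_le_const_mul_sum_rpow_of_nonneg s hp fun _ _ => norm_nonneg _)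

/-- local smoothing for data with random signs -/
theorem fin (hS : S_SQ) (hK : S_KHI) (d : ℕ) (p : ℝ) (hp : 2 ≤ p) (K : 𝓢(E d, ℂ))
    (hc : HasCompactSupport (K : E d → ℂ)) :
    ∃ C : ℝ, 0 < C ∧ ∀ (ι : Type) [Fintype ι] [DecidableEq ι] (A : ι → Finset (Fin d → ℤ)) (V : ℕ),
    (∀ i j, i ≠ j → Disjoint (A i) (A j)) → (∀ i, (A i).card ≤ V) →
    ∀ (f₀ f₁ g₀ : 𝓢(E d, ℂ)) (g : Fin d → 𝓢(E d, ℂ)),
    (∀ x, f₁ x = g₀ x + ∑ j, lineDeriv ℝ (g j) x (EuclideanSpace.single j (1 : ℝ))) →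
    ∀ t : ℝ, 0 ≤ t → t ≤ 2 →
      (∑ ε : ι → Bool, ∫⁻ x : E d, ‖wave (fun ξ => rnd K A ε ξ * 𝓕 (f₀ : E d → ℂ) ξ)
        (fun ξ => rnd K A ε ξ * 𝓕 (f₁ : E d → ℂ) ξ) t x‖ₑ ^ p) / 2 ^ Fintype.card ι ≤
        ENNReal.ofReal (C * (V : ℝ) ^ (p / 2 - 1)) *
          ((∫⁻ x : E d, ‖f₀ x‖ₑ ^ p) + (∫⁻ x : E d, ‖g₀ x‖ₑ ^ p) +
            ∑ j, ∫⁻ x : E d, ‖g j x‖ₑ ^ p) := by
  obtain ⟨C, hC, h1⟩ := hS d p hp K hc
  obtain ⟨D, hD, h2⟩ := khi_enn hK p hp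
  refine ⟨((d : ℝ) + 2) ^ (p - 1) * D * C, by positivity, ?_⟩
  intro ι _ _ A V hA hV f₀ f₁ g₀ g hf t h0 h2t
  have hw := fun ε => wave_eq K A ε f₀ f₁ g₀ g (fourier_gen f₁ g₀ g hf) t h0 h2t
  set P : Fin d ⊕ Bool → ι → E d → ℂ := fun k i x =>
    inv (fun ξ => psi K (A i) ξ * (sym k t ξ * 𝓕 (gen f₀ g₀ g k : E d → ℂ) ξ)) x with hP
  have hPc : ∀ k i, Continuous (P k i) := fun k i =>
    inv_cont _ (psi_int K (A i) _ (sym_int k t h0 h2t (gen f₀ g₀ g k)))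
  have hw' : ∀ ε x, wave (fun ξ => rnd K A ε ξ * 𝓕 (f₀ : E d → ℂ) ξ)
        (fun ξ => rnd K A ε ξ * 𝓕 (f₁ : E d → ℂ) ξ) t x =
      ∑ k : Fin d ⊕ Bool, ∑ i, (if ε i then P k i x else - P k i x) := fun ε x => hw ε x
  simp only [hw']
  have hcs : ∀ (ε : ι → Bool) (k : Fin d ⊕ Bool), Continuous fun x => ∑ i, (if ε i then P k i x else - P k i x) := by
    intro ε k
    refine continuous_finset_sum _ fun i _ => ?_
    by_cases h : ε i = true
    · simp only [h, if_true]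
      exact hPc k i
    · simp only [h, if_false, Bool.false_eq_true]
      exact (hPc k i).neg
  have hms : ∀ (ε : ι → Bool) (k : Fin d ⊕ Bool), Measurable fun x => ‖∑ i, (if ε i then P k i x else - P k i x)‖ₑ ^ p :=
    fun ε k => ((hcs ε k).measurable.enorm).pow_const p
  have hcard : (Finset.univ : Finset (Fin d ⊕ Bool)).card = d + 2 := by simp
  have s1 : ∀ ε : ι → Bool, ∫⁻ x : E d, ‖∑ k : Fin d ⊕ Bool, ∑ i, (if ε i then P k i x else
      - P k i x)‖ₑ ^ p ≤ ENNReal.ofReal (((d : ℝ) + 2) ^ (p - 1)) *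
        ∑ k : Fin d ⊕ Bool, ∫⁻ x : E d, ‖∑ i, (if ε i then P k i x else - P k i x)‖ₑ ^ p := by
    intro ε
    rw [← lintegral_finset_sum _ fun k _ => hms ε k, ← lintegral_const_mul']
    · refine lintegral_mono fun x => ?_
      have h3 := pow_sum p (by linarith) (Finset.univ : Finset (Fin d ⊕ Bool))
        (fun k => ∑ i, (if ε i then P k i x else - P k i x))
      rw [hcard] at h3
      push_cast at h3
      exact h3
    · exact ENNReal.ofReal_ne_top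
  have s2 : ∑ ε : ι → Bool, ∫⁻ x : E d, ‖∑ k : Fin d ⊕ Bool, ∑ i, (if ε i then P k i x else
      - P k i x)‖ₑ ^ p ≤ ENNReal.ofReal (((d : ℝ) + 2) ^ (p - 1)) *
        ∑ k : Fin d ⊕ Bool, ENNReal.ofReal (D * 2 ^ Fintype.card ι) *
          (ENNReal.ofReal (C * (V : ℝ) ^ (p / 2 - 1)) *
            ∫⁻ x : E d, ‖(gen f₀ g₀ g k) x‖ₑ ^ p) := by
    calc _ ≤ ∑ ε : ι → Bool, ENNReal.ofReal (((d : ℝ) + 2) ^ (p - 1)) *
        ∑ k : Fin d ⊕ Bool, ∫⁻ x : E d, ‖∑ i, (if ε i then P k i x else - P k i x)‖ₑ ^ p :=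
          Finset.sum_le_sum fun ε _ => s1 ε
      _ = ENNReal.ofReal (((d : ℝ) + 2) ^ (p - 1)) *
        ∑ k : Fin d ⊕ Bool, ∑ ε : ι → Bool,
          ∫⁻ x : E d, ‖∑ i, (if ε i then P k i x else - P k i x)‖ₑ ^ p := by
          rw [← Finset.mul_sum, Finset.sum_comm]
      _ ≤ _ := by
          gcongr with k _
          rw [← lintegral_finset_sum _ fun ε _ => hms ε k]
          calc ∫⁻ x : E d, ∑ ε : ι → Bool, ‖∑ i, (if ε i then P k i x else - P k i x)‖ₑ ^ p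
              ≤ ∫⁻ x : E d, ENNReal.ofReal (D * 2 ^ Fintype.card ι) *
                (∑ i, ‖P k i x‖ₑ ^ (2 : ℝ)) ^ (p / 2) :=
                lintegral_mono fun x => h2 ι (fun i => P k i x)
            _ = ENNReal.ofReal (D * 2 ^ Fintype.card ι) *
                ∫⁻ x : E d, (∑ i, ‖P k i x‖ₑ ^ (2 : ℝ)) ^ (p / 2) :=
                lintegral_const_mul' _ _ ENNReal.ofReal_ne_top
            _ ≤ _ := by
                gcongr
                exact h1 ι A V hA hV (gen f₀ g₀ g k) t h0 h2t k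
  have s3 : ∑ k : Fin d ⊕ Bool, ∫⁻ x : E d, ‖(gen f₀ g₀ g k) x‖ₑ ^ p =
      (∫⁻ x : E d, ‖f₀ x‖ₑ ^ p) + (∫⁻ x : E d, ‖g₀ x‖ₑ ^ p) +
        ∑ j, ∫⁻ x : E d, ‖g j x‖ₑ ^ p := by
    rw [Fintype.sum_sum_type, Fintype.sum_bool, add_comm]
    rfl
  rw [ENNReal.div_le_iff (by positivity) (by finiteness)]
  refine s2.trans (le_of_eq ?_)
  rw [← Finset.mul_sum, ← Finset.mul_sum, s3]
  have e5 : ENNReal.ofReal (D * 2 ^ Fintype.card ι) = ENNReal.ofReal D * 2 ^ Fintype.card ι := by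
    rw [ENNReal.ofReal_mul hD.le, ENNReal.ofReal_pow (by norm_num), ENNReal.ofReal_ofNat]
  have e6 : ENNReal.ofReal (((d : ℝ) + 2) ^ (p - 1) * D * C * (V : ℝ) ^ (p / 2 - 1)) =
      ENNReal.ofReal (((d : ℝ) + 2) ^ (p - 1)) * ENNReal.ofReal D *
        ENNReal.ofReal (C * (V : ℝ) ^ (p / 2 - 1)) := by
    rw [← ENNReal.ofReal_mul (by positivity), ← ENNReal.ofReal_mul (by positivity)]
    congr 1
    ring
  rw [e5, e6]
  ring

end Pool.Agent.N303.LS
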