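import Pool.Agent.N303.LS.Stm2
import Pool.Agent.N303.LS.Fin

/-!
# Project LS (helper303): the final inequality in Sobolev norms
-/

set_option autoImplicit false

namespace Pool.Agent.N303.LS

open MeasureTheory
open scoped ENNReal FourierTransform RealInnerProductSpace SchwartzMap

theorem bp (hM : S_MUL) (hB : S_BES) : S_BP := by
  have key : ∀ (d : ℕ) (p : ℝ), 1 ≤ p → ∀ m : E d → ℂ, (∃ κ : ℝ × E d → ℂ, Integrable κ ∧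
      ∀ ξ : E d, m ξ = ∫ q : ℝ × E d, Complex.exp (((-(2 * Real.pi *
        ⟪Real.sqrt q.1 • q.2, ξ⟫) : ℝ) : ℂ) * Complex.I) * κ q) →
      ∃ C : ℝ, 0 < C ∧ ∀ g : 𝓢(E d, ℂ),
      ∫⁻ x : E d, ‖inv (fun ξ => m ξ * 𝓕 (g : E d → ℂ) ξ) x‖ₑ ^ p ≤
        ENNReal.ofReal C * ∫⁻ x : E d, ‖g x‖ₑ ^ p := by
    intro d p hp m hm
    obtain ⟨κ, hκ, h⟩ := hm
    have hfin : (∫⁻ q, ‖κ q‖ₑ) < ⊤ := hκ.2
    refine ⟨((∫⁻ q, ‖κ q‖ₑ) ^ p).toReal + 1, by positivity, fun g => ?_⟩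
    have h1 := hM d (ℝ × E d) inferInstance volume inferInstance
      (fun q => Real.sqrt q.1 • q.2) κ (by fun_prop) hκ g p hp
    have h2 : (fun ξ => m ξ * 𝓕 (g : E d → ℂ) ξ) = fun ξ => (∫ q : ℝ × E d, Complex.exp
        (((-(2 * Real.pi * ⟪Real.sqrt q.1 • q.2, ξ⟫) : ℝ) : ℂ) * Complex.I) * κ q) *
        𝓕 (g : E d → ℂ) ξ := by
      funext ξ
      rw [h ξ]
    rw [h2]
    refine h1.trans ?_
    gcongr
    calc (∫⁻ q, ‖κ q‖ₑ) ^ p = ENNReal.ofReal (((∫⁻ q, ‖κ q‖ₑ) ^ p).toReal) :=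
          (ENNReal.ofReal_toReal (ENNReal.rpow_lt_top_of_nonneg (by linarith) hfin.ne).ne).symm
      _ ≤ _ := ENNReal.ofReal_le_ofReal (by linarith)
  intro d s p hp
  refine ⟨fun hs => key d p hp _ ((hB d s).1 hs), fun hs j => ?_⟩
  exact key d p hp (fun ξ => ((2 * Real.pi * ξ j : ℝ) : ℂ) * Complex.I * bes (-s) ξ) ((hB d s).2 hs j)

lemma mult {d : ℕ} (m : E d → ℂ) (hm : m.HasTemperateGrowth) (g : 𝓢(E d, ℂ)) :
    ∃ h : 𝓢(E d, ℂ), (∀ ξ, 𝓕 (h : E d → ℂ) ξ = m ξ * 𝓕 (g : E d → ℂ) ξ) ∧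
      ∀ x, h x = inv (fun ξ => m ξ * 𝓕 (g : E d → ℂ) ξ) x := by
  refine ⟨𝓕⁻ (SchwartzMap.smulLeftCLM ℂ m (𝓕 g)), ?_, ?_⟩
  · intro ξ
    rw [← SchwartzMap.fourier_coe, FourierTransform.fourier_fourierInv_eq,
      SchwartzMap.smulLeftCLM_apply_apply hm, SchwartzMap.fourier_coe, smul_eq_mul]
  · intro x
    rw [SchwartzMap.fourierInv_coe, Real.fourierInv_eq']
    unfold inv
    refine integral_congr_ae (Filter.Eventually.of_forall fun ξ => ?_)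
    simp only
    rw [SchwartzMap.smulLeftCLM_apply_apply hm, SchwartzMap.fourier_coe, smul_eq_mul, smul_eq_mul,
      real_inner_comm]

lemma bes_tg {d : ℕ} (a : ℝ) : (bes a : E d → ℂ).HasTemperateGrowth := by
  have h1 := Function.hasTemperateGrowth_one_add_norm_sq_rpow (E d) (a / 2)
  have h2 : (fun ξ : E d => (1 + 4 * Real.pi ^ 2 * ‖ξ‖ ^ 2) ^ (a / 2)).HasTemperateGrowth := by
    have h3 : (fun ξ : E d => (2 * Real.pi) • ξ).HasTemperateGrowth :=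
      ((2 * Real.pi) • (ContinuousLinearMap.id ℝ (E d))).hasTemperateGrowth
    have h4 := h1.comp h3
    refine (show (fun ξ : E d => (1 + 4 * Real.pi ^ 2 * ‖ξ‖ ^ 2) ^ (a / 2)) = _ from ?_) ▸ h4
    funext ξ
    simp only [Function.comp]
    rw [norm_smul, Real.norm_eq_abs, mul_pow, sq_abs]
    ring_nf
  exact Function.HasTemperateGrowth.comp Function.Complex.hasTemperateGrowth_ofReal h2

lemma coord_tg {d : ℕ} (j : Fin d) : (fun ξ : E d => ((2 * Real.pi * ξ j : ℝ) : ℂ) *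
    Complex.I).HasTemperateGrowth := by
  have h : (fun ξ : E d => 2 * Real.pi * ξ j).HasTemperateGrowth :=
    ((2 * Real.pi) • (EuclideanSpace.proj j : E d →L[ℝ] ℝ)).hasTemperateGrowth
  exact (Function.HasTemperateGrowth.comp Function.Complex.hasTemperateGrowth_ofReal h).mul
    (Function.HasTemperateGrowth.const _)

lemma bes_mul {d : ℕ} (a b : ℝ) (ξ : E d) : bes a ξ * bes b ξ = bes (a + b) ξ := by
  unfold bes
  rw [← Complex.ofReal_mul, ← Real.rpow_add (by positivity)]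
  congr 2
  ring

lemma bes_zero {d : ℕ} (ξ : E d) : bes 0 ξ = 1 := by
  unfold bes
  simp

lemma bes_two {d : ℕ} (ξ : E d) : bes 2 ξ = ((1 + 4 * Real.pi ^ 2 * ‖ξ‖ ^ 2 : ℝ) : ℂ) := by
  unfold bes
  norm_num

lemma four_inj {d : ℕ} (f g : 𝓢(E d, ℂ)) (h : ∀ ξ, 𝓕 (f : E d → ℂ) ξ = 𝓕 (g : E d → ℂ) ξ) :
    f = g := by
  have h1 : (𝓕 f : 𝓢(E d, ℂ)) = 𝓕 g := by
    ext ξ
    rw [SchwartzMap.fourier_coe, SchwartzMap.fourier_coe, h]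
  have h2 := congrArg (fun F : 𝓢(E d, ℂ) => (𝓕⁻ F : 𝓢(E d, ℂ))) h1
  simpa using h2

lemma sum_line {d : ℕ} (g₀ : 𝓢(E d, ℂ)) (g : Fin d → 𝓢(E d, ℂ)) (x : E d) :
    (g₀ + ∑ j, LineDeriv.lineDerivOp (EuclideanSpace.single j (1 : ℝ)) (g j) : 𝓢(E d, ℂ)) x =
      g₀ x + ∑ j, lineDeriv ℝ (g j) x (EuclideanSpace.single j (1 : ℝ)) := by
  simp [SchwartzMap.lineDerivOp_apply]

/-- local smoothing for data with random signs, in Sobolev norms -/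
theorem fin2 (hBP : S_BP) (hS : S_SQ) (hK : S_KHI) (d : ℕ) (p s : ℝ) (hp : 2 ≤ p) (hs : 0 < s)
    (K : 𝓢(E d, ℂ)) (hc : HasCompactSupport (K : E d → ℂ)) :
    ∃ C : ℝ, 0 < C ∧ ∀ (ι : Type) [Fintype ι] [DecidableEq ι] (A : ι → Finset (Fin d → ℤ)) (V : ℕ),
    (∀ i j, i ≠ j → Disjoint (A i) (A j)) → (∀ i, (A i).card ≤ V) →
    ∀ (u₀ u₁ : 𝓢(E d, ℂ)) (t : ℝ), 0 ≤ t → t ≤ 2 →
      (∑ ε : ι → Bool, ∫⁻ x : E d, ‖wave (fun ξ => rnd K A ε ξ * 𝓕 (u₀ : E d → ℂ) ξ)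
        (fun ξ => rnd K A ε ξ * 𝓕 (u₁ : E d → ℂ) ξ) t x‖ₑ ^ p) / 2 ^ Fintype.card ι ≤
        ENNReal.ofReal (C * (V : ℝ) ^ (p / 2 - 1)) *
          ((∫⁻ x : E d, ‖inv (fun ξ => bes s ξ * 𝓕 (u₀ : E d → ℂ) ξ) x‖ₑ ^ p) +
            ∫⁻ x : E d, ‖inv (fun ξ => bes (s - 1) ξ * 𝓕 (u₁ : E d → ℂ) ξ) x‖ₑ ^ p) := by
  obtain ⟨C, hC, h⟩ := fin hS hK d p hp K hc
  obtain ⟨C0, hC0, b0⟩ := (hBP d s p (by linarith)).1 hs
  obtain ⟨C1, hC1, b1⟩ := (hBP d (1 + s) p (by linarith)).1 (by linarith)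
  choose C2 hC2 b2 using (hBP d (1 + s) p (by linarith)).2 (by linarith)
  set D : ℝ := C0 + C1 + ∑ j, C2 j with hD
  have hsum : 0 ≤ ∑ j, C2 j := Finset.sum_nonneg fun j _ => (hC2 j).le
  have hDpos : 0 < D := by positivity
  refine ⟨C * D, by positivity, ?_⟩
  intro ι _ _ A V hA hV u₀ u₁ t h0 h2
  obtain ⟨F₀, hF0, hF0x⟩ := mult (bes s) (bes_tg s) u₀
  obtain ⟨F₁, hF1, hF1x⟩ := mult (bes (s - 1)) (bes_tg (s - 1)) u₁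
  obtain ⟨g₀, hg0, hg0x⟩ := mult (bes (-(1 + s))) (bes_tg _) F₁
  have hj : ∀ j : Fin d, ∃ h : 𝓢(E d, ℂ), (∀ ξ, 𝓕 (h : E d → ℂ) ξ =
      (((2 * Real.pi * ξ j : ℝ) : ℂ) * Complex.I * bes (-(1 + s)) ξ) * 𝓕 (F₁ : E d → ℂ) ξ) ∧
      ∀ x, h x = inv (fun ξ => (((2 * Real.pi * ξ j : ℝ) : ℂ) * Complex.I * bes (-(1 + s)) ξ) *
        𝓕 (F₁ : E d → ℂ) ξ) x := fun j =>
    mult (fun ξ => ((2 * Real.pi * ξ j : ℝ) : ℂ) * Complex.I * bes (-(1 + s)) ξ)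
      ((coord_tg j).mul (bes_tg _)) F₁
  choose G hG hGx using hj
  -- `u₁ = g₀ - ∑ ∂_j G_j`
  have e1 : ∀ ξ, 𝓕 (u₁ : E d → ℂ) ξ = 𝓕 (g₀ : E d → ℂ) ξ +
      ∑ j, ((2 * Real.pi * ξ j : ℝ) : ℂ) * Complex.I * 𝓕 ((-(G j) : 𝓢(E d, ℂ)) : E d → ℂ) ξ := by
    intro ξ
    have n1 : ∀ j, 𝓕 ((-(G j) : 𝓢(E d, ℂ)) : E d → ℂ) ξ = - 𝓕 (G j : E d → ℂ) ξ := by
      intro j
      rw [← SchwartzMap.fourier_coe, ← SchwartzMap.fourier_coe, FourierTransform.fourier_neg]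
      rfl
    simp only [n1, hG, hg0, hF1]
    have n2 : bes (-(1 + s)) ξ * (bes (s - 1) ξ * 𝓕 (u₁ : E d → ℂ) ξ) =
        bes (-2) ξ * 𝓕 (u₁ : E d → ℂ) ξ := by
      rw [← mul_assoc, bes_mul]
      congr 2
      ring
    have n3 : ∀ j : Fin d, ((2 * Real.pi * ξ j : ℝ) : ℂ) * Complex.I *
        -((((2 * Real.pi * ξ j : ℝ) : ℂ) * Complex.I * bes (-(1 + s)) ξ) *
          (bes (s - 1) ξ * 𝓕 (u₁ : E d → ℂ) ξ)) =
        ((4 * Real.pi ^ 2 * (ξ j) ^ 2 : ℝ) : ℂ) * (bes (-2) ξ * 𝓕 (u₁ : E d → ℂ) ξ) := by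
      intro j
      rw [← n2]
      have hI := Complex.I_mul_I
      push_cast
      linear_combination (-(4 * (Real.pi : ℂ) ^ 2 * (ξ j : ℂ) ^ 2) * (bes (-(1 + s)) ξ *
        (bes (s - 1) ξ * 𝓕 (u₁ : E d → ℂ) ξ))) * hI
    simp only [n3]
    rw [n2, ← Finset.sum_mul]
    have n4 : (1 : ℂ) + ∑ j, ((4 * Real.pi ^ 2 * (ξ j) ^ 2 : ℝ) : ℂ) = bes 2 ξ := by
      rw [bes_two, ← Complex.ofReal_sum, ← Complex.ofReal_one, ← Complex.ofReal_add]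
      congr 2
      rw [EuclideanSpace.norm_sq_eq, Finset.mul_sum]
      refine Finset.sum_congr rfl fun j _ => ?_
      rw [Real.norm_eq_abs, sq_abs]
    have n5 : bes 2 ξ * bes (-2) ξ = 1 := by
      rw [bes_mul]
      norm_num [bes_zero]
    linear_combination (-(bes (-2) ξ * 𝓕 (u₁ : E d → ℂ) ξ)) * n4 - (𝓕 (u₁ : E d → ℂ) ξ) * n5
  have e2 : ∀ x, u₁ x = g₀ x + ∑ j, lineDeriv ℝ ((-(G j) : 𝓢(E d, ℂ)) : E d → ℂ) x
      (EuclideanSpace.single j (1 : ℝ)) := by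
    set f' : 𝓢(E d, ℂ) := g₀ + ∑ j, LineDeriv.lineDerivOp (EuclideanSpace.single j (1 : ℝ)) (-(G j))
      with hf'
    have q1 : ∀ x, f' x = g₀ x + ∑ j, lineDeriv ℝ ((-(G j) : 𝓢(E d, ℂ)) : E d → ℂ) x
        (EuclideanSpace.single j (1 : ℝ)) := by
      intro x
      exact sum_line g₀ (fun j => -(G j)) x
    have q2 := fourier_gen f' g₀ (fun j => -(G j)) q1
    have q3 : u₁ = f' := four_inj _ _ fun ξ => by rw [e1 ξ, q2 ξ]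
    rw [q3]
    exact q1
  have e3 := h ι A V hA hV u₀ u₁ g₀ (fun j => -(G j)) e2 t h0 h2
  have m0 : ∫⁻ x : E d, ‖u₀ x‖ₑ ^ p ≤ ENNReal.ofReal C0 * ∫⁻ x : E d, ‖F₀ x‖ₑ ^ p := by
    obtain ⟨u', hu', hu'x⟩ := mult (bes (-s)) (bes_tg _) F₀
    have q : u₀ = u' := four_inj _ _ fun ξ => by
      rw [hu' ξ, hF0 ξ, ← mul_assoc, bes_mul, neg_add_cancel, bes_zero, one_mul]
    rw [q]
    simp only [hu'x]
    exact b0 F₀
  have m1 : ∫⁻ x : E d, ‖g₀ x‖ₑ ^ p ≤ ENNReal.ofReal C1 * ∫⁻ x : E d, ‖F₁ x‖ₑ ^ p := by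
    simp only [hg0x]
    exact b1 F₁
  have m2 : ∀ j, ∫⁻ x : E d, ‖(-(G j) : 𝓢(E d, ℂ)) x‖ₑ ^ p ≤
      ENNReal.ofReal (C2 j) * ∫⁻ x : E d, ‖F₁ x‖ₑ ^ p := by
    intro j
    have m3 : ∀ x, ‖(-(G j) : 𝓢(E d, ℂ)) x‖ₑ = ‖G j x‖ₑ := fun x => by
      rw [neg_apply, enorm_neg]
    simp only [m3, hGx]
    exact b2 j F₁
  refine e3.trans ?_
  simp only [← hF0x, ← hF1x]
  set X := ∫⁻ x : E d, ‖F₀ x‖ₑ ^ p with hX
  set Y := ∫⁻ x : E d, ‖F₁ x‖ₑ ^ p with hY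
  have z1 : (∫⁻ x : E d, ‖u₀ x‖ₑ ^ p) + (∫⁻ x : E d, ‖g₀ x‖ₑ ^ p) +
      ∑ j, ∫⁻ x : E d, ‖(-(G j) : 𝓢(E d, ℂ)) x‖ₑ ^ p ≤ ENNReal.ofReal D * (X + Y) := by
    calc _ ≤ ENNReal.ofReal C0 * X + ENNReal.ofReal C1 * Y + ∑ j, ENNReal.ofReal (C2 j) * Y :=
          add_le_add (add_le_add m0 m1) (Finset.sum_le_sum fun j _ => m2 j)
      _ ≤ ENNReal.ofReal C0 * (X + Y) + ENNReal.ofReal C1 * (X + Y) +
          ∑ j, ENNReal.ofReal (C2 j) * (X + Y) := by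
          gcongr
          · exact le_self_add
          · exact le_add_self
          · exact le_add_self
      _ = ENNReal.ofReal D * (X + Y) := by
          rw [← Finset.sum_mul, ← add_mul, ← add_mul, hD, ENNReal.ofReal_add (by positivity) hsum,
            ENNReal.ofReal_add hC0.le hC1.le, ENNReal.ofReal_sum_of_nonneg fun j _ => (hC2 j).le]
  calc _ ≤ ENNReal.ofReal (C * (V : ℝ) ^ (p / 2 - 1)) * (ENNReal.ofReal D * (X + Y)) := by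
        gcongr
    _ = _ := by
        rw [← mul_assoc, ← ENNReal.ofReal_mul (by positivity)]
        congr 2
        ring

end Pool.Agent.N303.LS
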