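import Pool.Agent.N303.LS.Stm3
import Pool.Agent.N303.LS.Fin2
import Pool.Agent.N545.LS.SQ

/-!
# Project LM (helper303): the final inequality for the maximal function
-/

set_option autoImplicit false

namespace Pool.Agent.N303.LS

open MeasureTheory
open scoped ENNReal FourierTransform RealInnerProductSpace SchwartzMap

lemma sum_lint_le {α κ : Type} [MeasurableSpace α] (μ : Measure α) (s : Finset κ)
    (f : κ → α → ℝ≥0∞) : ∑ i ∈ s, ∫⁻ a, f i a ∂μ ≤ ∫⁻ a, ∑ i ∈ s, f i a ∂μ := by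
  classical
  induction s using Finset.induction_on with
  | empty => simp
  | insert i s hi ih =>
    simp only [Finset.sum_insert hi]
    exact (add_le_add le_rfl ih).trans (le_lintegral_add _ _)

lemma nrg_neg {d : ℕ} (M : ℕ) (g : 𝓢(E d, ℂ)) (x : E d) :
    nrg M (-g : 𝓢(E d, ℂ)) x = nrg M g x := by
  unfold nrg
  refine lintegral_congr fun y => ?_
  rw [neg_apply, enorm_neg]

/-- Jensen for the mean over the signs -/
lemma jen {κ : Type} [Fintype κ] (p q : ℝ) (hp : 0 < p) (hpq : p ≤ q) (a : κ → ℝ≥0∞) :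
    ∑ ε, a ε ^ p ≤ (Fintype.card κ : ℝ≥0∞) ^ (1 - p / q) * (∑ ε, a ε ^ q) ^ (p / q) := by
  have hq : 0 < q := by linarith
  have h := ENNReal.rpow_sum_le_const_mul_sum_rpow (s := (Finset.univ : Finset κ))
    (f := fun ε => a ε ^ p) (p := q / p) (by rwa [le_div_iff₀ hp, one_mul])
  have e1 : ∀ ε, (a ε ^ p) ^ (q / p) = a ε ^ q := fun ε => by
    rw [← ENNReal.rpow_mul]
    congr 1
    field_simp
  simp only [e1] at h
  have h2 := ENNReal.rpow_le_rpow h (show 0 ≤ p / q by positivity)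
  rw [← ENNReal.rpow_mul, ENNReal.mul_rpow_of_nonneg _ _ (show 0 ≤ p / q by positivity),
    ← ENNReal.rpow_mul] at h2
  have e2 : q / p * (p / q) = 1 := by field_simp
  have e3 : (q / p - 1) * (p / q) = 1 - p / q := by field_simp
  rw [e2, ENNReal.rpow_one, e3, Finset.card_univ] at h2
  exact h2

/-- the pointwise bound with exponent `p` -/
lemma maxp {κ : Type} [Fintype κ] (n : ℕ) (hn : Fintype.card κ = 2 ^ n) (p q C : ℝ) (V : ℕ)
    (hp : 0 < p) (hpq : p ≤ q) (hC : 0 < C) (a : κ → ℝ≥0∞) (E0 : ℝ≥0∞)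
    (h : ∑ ε, a ε ^ q ≤ ENNReal.ofReal (C * 2 ^ n * (V : ℝ) ^ (q / 2)) * E0 ^ (q / 2)) :
    ∑ ε, a ε ^ p ≤ ENNReal.ofReal (C ^ (p / q) * (V : ℝ) ^ (p / 2)) * 2 ^ n * E0 ^ (p / 2) := by
  have hq : 0 < q := by linarith
  refine (jen p q hp hpq a).trans ?_
  have h2 := ENNReal.rpow_le_rpow h (show 0 ≤ p / q by positivity)
  refine (mul_le_mul_right h2 _).trans ?_
  rw [ENNReal.mul_rpow_of_nonneg _ _ (show 0 ≤ p / q by positivity), ← ENNReal.rpow_mul,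
    ENNReal.ofReal_rpow_of_nonneg (by positivity) (show 0 ≤ p / q by positivity), hn]
  have e1 : q / 2 * (p / q) = p / 2 := by field_simp
  have e2 : (C * 2 ^ n * (V : ℝ) ^ (q / 2)) ^ (p / q) =
      (C ^ (p / q) * (V : ℝ) ^ (p / 2)) * ((2 : ℝ) ^ n) ^ (p / q) := by
    rw [Real.mul_rpow (by positivity) (by positivity), Real.mul_rpow (by positivity) (by positivity),
      ← Real.rpow_mul (by positivity), e1]
    ring
  rw [e1, e2, ENNReal.ofReal_mul (by positivity)]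
  have e3 : ENNReal.ofReal (((2 : ℝ) ^ n) ^ (p / q)) = ((2 : ℝ≥0∞) ^ n) ^ (p / q) := by
    rw [← ENNReal.ofReal_rpow_of_nonneg (by positivity) (by positivity),
      ENNReal.ofReal_pow (by norm_num), ENNReal.ofReal_ofNat]
  have e4 : ((2 ^ n : ℕ) : ℝ≥0∞) = (2 : ℝ≥0∞) ^ n := by push_cast; rfl
  have e5 : ((2 : ℝ≥0∞) ^ n) ^ (1 - p / q) * ((2 : ℝ≥0∞) ^ n) ^ (p / q) = (2 : ℝ≥0∞) ^ n := by
    rw [← ENNReal.rpow_add _ _ (by positivity) (by finiteness)]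
    simp
  rw [e3, e4]
  refine le_of_eq ?_
  calc ((2 : ℝ≥0∞) ^ n) ^ (1 - p / q) * (ENNReal.ofReal (C ^ (p / q) * (V : ℝ) ^ (p / 2)) *
        ((2 : ℝ≥0∞) ^ n) ^ (p / q) * E0 ^ (p / 2)) =
        ENNReal.ofReal (C ^ (p / q) * (V : ℝ) ^ (p / 2)) *
        (((2 : ℝ≥0∞) ^ n) ^ (1 - p / q) * ((2 : ℝ≥0∞) ^ n) ^ (p / q)) * E0 ^ (p / 2) := by ring
    _ = _ := by rw [e5]

/-- the maximal function in time for data with random signs, in Sobolev norms -/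
theorem fin3 (hHR : S_HR) (hYOU : S_YOU) (d : ℕ) (hd : 0 < d) (p s : ℝ) (hp : 2 ≤ p) (hs : 0 < s)
    (K : 𝓢(E d, ℂ)) (hc : HasCompactSupport (K : E d → ℂ)) :
    ∃ C : ℝ, 0 < C ∧ ∀ (ι : Type) [Fintype ι] [DecidableEq ι] (A : ι → Finset (Fin d → ℤ)) (V : ℕ),
    (∀ i j, i ≠ j → Disjoint (A i) (A j)) → (∀ i, (A i).card ≤ V) →
    ∀ (u₀ u₁ : 𝓢(E d, ℂ)),
      (∑ ε : ι → Bool, ∫⁻ x : E d, (⨆ t ∈ Set.Icc (0 : ℝ) 2,
        ‖wave (fun ξ => rnd K A ε ξ * 𝓕 (u₀ : E d → ℂ) ξ)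
        (fun ξ => rnd K A ε ξ * 𝓕 (u₁ : E d → ℂ) ξ) t x‖ₑ) ^ p) / 2 ^ Fintype.card ι ≤
        ENNReal.ofReal (C * (V : ℝ) ^ (p / 2)) *
          ((∫⁻ x : E d, ‖inv (fun ξ => bes s ξ * 𝓕 (u₀ : E d → ℂ) ξ) x‖ₑ ^ p) +
            ∫⁻ x : E d, ‖inv (fun ξ => bes (s - 1) ξ * 𝓕 (u₁ : E d → ℂ) ξ) x‖ₑ ^ p) := by
  set q : ℝ := max p (2 / s) with hqd
  have hpq : p ≤ q := le_max_left _ _
  have hq2 : 2 ≤ q := hp.trans hpq
  have hsq : 1 < s * q := by
    have h1 : 2 / s ≤ q := le_max_right _ _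
    have h2 : 2 ≤ s * q := by
      calc (2 : ℝ) = s * (2 / s) := by field_simp
        _ ≤ s * q := by gcongr
    linarith
  have hsq2 : 1 < (1 + s) * q := by nlinarith
  obtain ⟨C1, hC1, r1⟩ := hHR d d hd (by omega) s q hs hq2 hsq K hc
  obtain ⟨C2, hC2, r2⟩ := hHR d d hd (by omega) (1 + s) q (by linarith) hq2 hsq2 K hc
  obtain ⟨Y, hY, y⟩ := hYOU d d (by omega) p hp
  set D : ℝ := C1 ^ (p / q) + C2 ^ (p / q) with hD
  refine ⟨((d : ℝ) + 2) ^ (p - 1) * ((d : ℝ) + 2) * D * Y, by positivity, ?_⟩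
  intro ι _ _ A V hA hV u₀ u₁
  have hp0 : 0 < p := by linarith
  obtain ⟨F₀, hF0, hF0x⟩ := mult (bes s) (bes_tg s) u₀
  obtain ⟨F₁, hF1, hF1x⟩ := mult (bes (s - 1)) (bes_tg (s - 1)) u₁
  obtain ⟨g₀, hg0, hg0x⟩ := mult (bes (-(1 + s))) (bes_tg _) F₁
  have hj : ∀ j : Fin d, ∃ h : 𝓢(E d, ℂ), (∀ ξ, 𝓕 (h : E d → ℂ) ξ =
      (((2 * Real.pi * ξ j : ℝ) : ℂ) * Complex.I * bes (-(1 + s)) ξ) *
        𝓕 ((-F₁ : 𝓢(E d, ℂ)) : E d → ℂ) ξ) ∧
      ∀ x, h x = inv (fun ξ => (((2 * Real.pi * ξ j : ℝ) : ℂ) * Complex.I * bes (-(1 + s)) ξ) *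
        𝓕 ((-F₁ : 𝓢(E d, ℂ)) : E d → ℂ) ξ) x := fun j =>
    mult (fun ξ => ((2 * Real.pi * ξ j : ℝ) : ℂ) * Complex.I * bes (-(1 + s)) ξ)
      ((coord_tg j).mul (bes_tg _)) (-F₁)
  choose G hG hGx using hj
  have nF : ∀ ξ, 𝓕 ((-F₁ : 𝓢(E d, ℂ)) : E d → ℂ) ξ = - 𝓕 (F₁ : E d → ℂ) ξ := by
    intro ξ
    rw [← SchwartzMap.fourier_coe, ← SchwartzMap.fourier_coe, FourierTransform.fourier_neg]
    rfl
  have e1 : ∀ ξ, 𝓕 (u₁ : E d → ℂ) ξ = 𝓕 (g₀ : E d → ℂ) ξ +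
      ∑ j, ((2 * Real.pi * ξ j : ℝ) : ℂ) * Complex.I * 𝓕 (G j : E d → ℂ) ξ := by
    intro ξ
    simp only [hG, hg0, hF1, nF]
    have n2 : bes (-(1 + s)) ξ * (bes (s - 1) ξ * 𝓕 (u₁ : E d → ℂ) ξ) =
        bes (-2) ξ * 𝓕 (u₁ : E d → ℂ) ξ := by
      rw [← mul_assoc, bes_mul]
      congr 2
      ring
    have n3 : ∀ j : Fin d, ((2 * Real.pi * ξ j : ℝ) : ℂ) * Complex.I *
        ((((2 * Real.pi * ξ j : ℝ) : ℂ) * Complex.I * bes (-(1 + s)) ξ) *
          -(bes (s - 1) ξ * 𝓕 (u₁ : E d → ℂ) ξ)) =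
        ((4 * Real.pi ^ 2 * (ξ j) ^ 2 : ℝ) : ℂ) * (bes (-2) ξ * 𝓕 (u₁ : E d → ℂ) ξ) := by
      intro j
      rw [← n2]
      have hI := Complex.I_mul_I
      push_cast
      linear_combination (-(4 * (Real.pi : ℂ) ^ 2 * (ξ j : ℂ) ^ 2) * (bes (-(1 + s)) ξ *
        (bes (s - 1) ξ * 𝓕 (u₁ : E d → ℂ) ξ))) * hI
    simp only [n3]
    rw [n2, ← Finset.sum_mul]
    have n4 : (1 : ℂ) + ∑ j, ((4 * Real.pi ^ 2 * (ξ j) ^ 2 : ℝ) : ℂ) = bes 2 ξ := by
      rw [bes_two, ← Complex.ofReal_sum, ← Complex.ofReal_one, ← Complex.ofReal_add]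
      congr 2
      rw [EuclideanSpace.norm_sq_eq, Finset.mul_sum]
      refine Finset.sum_congr rfl fun j _ => ?_
      rw [Real.norm_eq_abs, sq_abs]
    have n5 : bes 2 ξ * bes (-2) ξ = 1 := by
      rw [bes_mul]
      norm_num [bes_zero]
    linear_combination (-(bes (-2) ξ * 𝓕 (u₁ : E d → ℂ) ξ)) * n4 - (𝓕 (u₁ : E d → ℂ) ξ) * n5
  have h0 : ∀ ξ, 𝓕 (u₀ : E d → ℂ) ξ = bes (-s) ξ * 𝓕 (F₀ : E d → ℂ) ξ := fun ξ => by
    rw [hF0 ξ, ← mul_assoc, bes_mul, neg_add_cancel, bes_zero, one_mul]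
  -- the wave is the sum of the signed sums
  have hw : ∀ (ε : ι → Bool) (x : E d), (⨆ t ∈ Set.Icc (0 : ℝ) 2,
      ‖wave (fun ξ => rnd K A ε ξ * 𝓕 (u₀ : E d → ℂ) ξ)
        (fun ξ => rnd K A ε ξ * 𝓕 (u₁ : E d → ℂ) ξ) t x‖ₑ) ≤
      ∑ k : Fin d ⊕ Bool, sp K A k (gen u₀ g₀ G k) ε x := by
    intro ε x
    refine iSup₂_le fun t ht => ?_
    rw [wave_eq K A ε u₀ u₁ g₀ G e1 t ht.1 ht.2 x]
    refine (enorm_sum_le _ _).trans ?_
    refine Finset.sum_le_sum fun k _ => ?_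
    exact le_iSup₂ (f := fun (t : ℝ) (_ : t ∈ Set.Icc (0 : ℝ) 2) =>
      ‖sg K A k (gen u₀ g₀ G k) ε t x‖ₑ) t ht
  -- the generators
  set gg : Fin d ⊕ Bool → 𝓢(E d, ℂ) := fun k => if k = Sum.inr true then F₀ else F₁ with hgg
  have hk : ∀ (k : Fin d ⊕ Bool) (x : E d), ∑ ε : ι → Bool, sp K A k (gen u₀ g₀ G k) ε x ^ p ≤
      ENNReal.ofReal (D * (V : ℝ) ^ (p / 2)) * 2 ^ Fintype.card ι * nrg d (gg k) x ^ (p / 2) := by
    intro k x
    have hcard : Fintype.card (ι → Bool) = 2 ^ Fintype.card ι := by simp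
    have m1 : ENNReal.ofReal (C1 ^ (p / q) * (V : ℝ) ^ (p / 2)) ≤
        ENNReal.ofReal (D * (V : ℝ) ^ (p / 2)) := by
      refine ENNReal.ofReal_le_ofReal ?_
      gcongr
      rw [hD]
      have : 0 ≤ C2 ^ (p / q) := by positivity
      linarith
    have m2 : ENNReal.ofReal (C2 ^ (p / q) * (V : ℝ) ^ (p / 2)) ≤
        ENNReal.ofReal (D * (V : ℝ) ^ (p / 2)) := by
      refine ENNReal.ofReal_le_ofReal ?_
      gcongr
      rw [hD]
      have : 0 ≤ C1 ^ (p / q) := by positivity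
      linarith
    match k with
    | Sum.inr true =>
      have h := r1 ι A V hA hV (Sum.inr true) u₀ F₀ (Or.inl h0) x
      have h' := maxp _ hcard p q C1 V hp0 hpq hC1 _ _ h
      have e : gg (Sum.inr true) = F₀ := by simp [hgg]
      rw [e]
      refine h'.trans ?_
      gcongr
    | Sum.inr false =>
      have h := r2 ι A V hA hV (Sum.inr false) g₀ F₁ (Or.inl hg0) x
      have h' := maxp _ hcard p q C2 V hp0 hpq hC2 _ _ h
      have e : gg (Sum.inr false) = F₁ := by simp [hgg]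
      rw [e]
      refine h'.trans ?_
      gcongr
    | Sum.inl j =>
      have h := r1 ι A V hA hV (Sum.inl j) (G j) (-F₁) (Or.inr ⟨j, hG j⟩) x
      have h' := maxp _ hcard p q C1 V hp0 hpq hC1 _ _ h
      have e : gg (Sum.inl j) = F₁ := by simp [hgg]
      rw [nrg_neg] at h'
      rw [e]
      refine h'.trans ?_
      gcongr
  have hgm : ∀ k, Measurable fun x => nrg d (gg k) x ^ (p / 2) := fun k =>
    (SQ_nrg d (gg k).continuous.measurable).pow_const _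
  set X := ∫⁻ x : E d, ‖F₀ x‖ₑ ^ p with hX
  set Z := ∫⁻ x : E d, ‖F₁ x‖ₑ ^ p with hZ
  have hgk : ∀ k, ∫⁻ x : E d, ‖gg k x‖ₑ ^ p ≤ X + Z := by
    intro k
    by_cases hkk : k = Sum.inr true
    · simp only [hgg, hkk, if_true]
      exact le_self_add
    · simp only [hgg, hkk, if_false]
      exact le_add_self
  have hcard2 : (Finset.univ : Finset (Fin d ⊕ Bool)).card = d + 2 := by simp
  have c1 : ∑ ε : ι → Bool, ∫⁻ x : E d, (⨆ t ∈ Set.Icc (0 : ℝ) 2,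
        ‖wave (fun ξ => rnd K A ε ξ * 𝓕 (u₀ : E d → ℂ) ξ)
        (fun ξ => rnd K A ε ξ * 𝓕 (u₁ : E d → ℂ) ξ) t x‖ₑ) ^ p ≤
      ENNReal.ofReal (((d : ℝ) + 2) ^ (p - 1)) * (ENNReal.ofReal (D * (V : ℝ) ^ (p / 2)) *
        2 ^ Fintype.card ι * ∑ k, ∫⁻ x : E d, nrg d (gg k) x ^ (p / 2)) := by
    calc _ ≤ ∑ ε : ι → Bool, ∫⁻ x : E d, (∑ k : Fin d ⊕ Bool, sp K A k (gen u₀ g₀ G k) ε x) ^ p :=
          Finset.sum_le_sum fun ε _ => lintegral_mono fun x =>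
            ENNReal.rpow_le_rpow (hw ε x) hp0.le
      _ ≤ ∫⁻ x : E d, ∑ ε : ι → Bool, (∑ k : Fin d ⊕ Bool, sp K A k (gen u₀ g₀ G k) ε x) ^ p :=
          sum_lint_le _ _ _
      _ ≤ ∫⁻ x : E d, ENNReal.ofReal (((d : ℝ) + 2) ^ (p - 1)) *
          (ENNReal.ofReal (D * (V : ℝ) ^ (p / 2)) * 2 ^ Fintype.card ι *
            ∑ k, nrg d (gg k) x ^ (p / 2)) := by
          refine lintegral_mono fun x => ?_
          have a1 : ∀ ε : ι → Bool, (∑ k : Fin d ⊕ Bool, sp K A k (gen u₀ g₀ G k) ε x) ^ p ≤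
              ENNReal.ofReal (((d : ℝ) + 2) ^ (p - 1)) *
                ∑ k : Fin d ⊕ Bool, sp K A k (gen u₀ g₀ G k) ε x ^ p := by
            intro ε
            have h3 := ENNReal.rpow_sum_le_const_mul_sum_rpow
              (s := (Finset.univ : Finset (Fin d ⊕ Bool)))
              (f := fun k => sp K A k (gen u₀ g₀ G k) ε x) (p := p) (by linarith)
            rw [hcard2] at h3
            refine h3.trans (le_of_eq ?_)
            congr 1
            rw [← ENNReal.ofReal_rpow_of_nonneg (by positivity) (by linarith),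
              ENNReal.ofReal_add (by positivity) (by norm_num), ENNReal.ofReal_natCast,
              ENNReal.ofReal_ofNat]
            push_cast
            rfl
          calc ∑ ε : ι → Bool, (∑ k : Fin d ⊕ Bool, sp K A k (gen u₀ g₀ G k) ε x) ^ p ≤
              ∑ ε : ι → Bool, ENNReal.ofReal (((d : ℝ) + 2) ^ (p - 1)) *
                ∑ k : Fin d ⊕ Bool, sp K A k (gen u₀ g₀ G k) ε x ^ p :=
                Finset.sum_le_sum fun ε _ => a1 ε
            _ = ENNReal.ofReal (((d : ℝ) + 2) ^ (p - 1)) * ∑ k : Fin d ⊕ Bool,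
                ∑ ε : ι → Bool, sp K A k (gen u₀ g₀ G k) ε x ^ p := by
                rw [← Finset.mul_sum, Finset.sum_comm]
            _ ≤ _ := by
                rw [Finset.mul_sum (s := (Finset.univ : Finset (Fin d ⊕ Bool)))
                  (f := fun k => nrg d (gg k) x ^ (p / 2))]
                gcongr with k _
                exact hk k x
      _ = _ := by
          rw [lintegral_const_mul' _ _ ENNReal.ofReal_ne_top,
            lintegral_const_mul' _ _ (by finiteness), lintegral_finset_sum _ fun k _ => hgm k]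
  have c2 : ∑ k, ∫⁻ x : E d, nrg d (gg k) x ^ (p / 2) ≤
      ENNReal.ofReal (((d : ℝ) + 2) * Y) * (X + Z) := by
    calc ∑ k, ∫⁻ x : E d, nrg d (gg k) x ^ (p / 2) ≤
        ∑ k : Fin d ⊕ Bool, ENNReal.ofReal Y * (X + Z) :=
          Finset.sum_le_sum fun k _ => (y (gg k)).trans (mul_le_mul_right (hgk k) _)
      _ = _ := by
          rw [Finset.sum_const, hcard2, nsmul_eq_mul, ENNReal.ofReal_mul (by positivity),
            ENNReal.ofReal_add (by positivity) (by norm_num), ENNReal.ofReal_natCast,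
            ENNReal.ofReal_ofNat]
          push_cast
          ring
  rw [ENNReal.div_le_iff (by positivity) (by finiteness)]
  refine c1.trans ?_
  simp only [← hF0x, ← hF1x]
  calc ENNReal.ofReal (((d : ℝ) + 2) ^ (p - 1)) * (ENNReal.ofReal (D * (V : ℝ) ^ (p / 2)) *
        2 ^ Fintype.card ι * ∑ k, ∫⁻ x : E d, nrg d (gg k) x ^ (p / 2)) ≤
      ENNReal.ofReal (((d : ℝ) + 2) ^ (p - 1)) * (ENNReal.ofReal (D * (V : ℝ) ^ (p / 2)) *
        2 ^ Fintype.card ι * (ENNReal.ofReal (((d : ℝ) + 2) * Y) * (X + Z))) := by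
        gcongr
    _ = _ := by
        have e6 : ENNReal.ofReal (((d : ℝ) + 2) ^ (p - 1) * ((d : ℝ) + 2) * D * Y *
            (V : ℝ) ^ (p / 2)) = ENNReal.ofReal (((d : ℝ) + 2) ^ (p - 1)) *
              ENNReal.ofReal (D * (V : ℝ) ^ (p / 2)) * ENNReal.ofReal (((d : ℝ) + 2) * Y) := by
          rw [← ENNReal.ofReal_mul (by positivity), ← ENNReal.ofReal_mul (by positivity)]
          congr 1
          ring
        rw [e6]
        ring

end Pool.Agent.N303.LS
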