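import Pool.Agent.N303.LS.Stm4
import Pool.Agent.N303.LS.Fin3
import Pool.Agent.N492.LS.Ort

/-!
# Project LT (helper303): the final inequality for multipliers from `L²(𝕋^d)` to `L^p(𝕋^d)`
-/

set_option autoImplicit false

namespace Pool.Agent.N303.LS

open MeasureTheory
open scoped ENNReal FourierTransform RealInnerProductSpace SchwartzMap

lemma psia_int {d : ℕ} (K : 𝓢(E d, ℂ)) (S : Finset (Fin d → ℤ)) (a : (Fin d → ℤ) → ℂ)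
    (F : E d → ℂ) (hF : Integrable F) : Integrable fun ξ => psia K S a ξ * F ξ := by
  have e : (fun ξ => psia K S a ξ * F ξ) = fun ξ => ∑ m ∈ S, a m * (psi K {m} ξ * F ξ) := by
    funext ξ
    unfold psia psi
    rw [Finset.sum_mul]
    refine Finset.sum_congr rfl fun m _ => ?_
    rw [Finset.sum_singleton]
    ring
  rw [e]
  exact integrable_finset_sum _ fun m _ => (psi_int K {m} F hF).const_mul _

lemma wave_eqa {d : ℕ} (K : 𝓢(E d, ℂ)) (S : Finset (Fin d → ℤ)) (a : (Fin d → ℤ) → ℂ)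
    (f₀ f₁ g₀ : 𝓢(E d, ℂ)) (g : Fin d → 𝓢(E d, ℂ))
    (hf : ∀ ξ, 𝓕 (f₁ : E d → ℂ) ξ = 𝓕 (g₀ : E d → ℂ) ξ +
      ∑ j, ((2 * Real.pi * ξ j : ℝ) : ℂ) * Complex.I * 𝓕 (g j : E d → ℂ) ξ)
    (t : ℝ) (h0 : 0 ≤ t) (h2 : t ≤ 2) (x : E d) :
    wave (fun ξ => psia K S a ξ * 𝓕 (f₀ : E d → ℂ) ξ) (fun ξ => psia K S a ξ * 𝓕 (f₁ : E d → ℂ) ξ) t x =
      ∑ k : Fin d ⊕ Bool,
        inv (fun ξ => psia K S a ξ * (sym k t ξ * 𝓕 (gen f₀ g₀ g k : E d → ℂ) ξ)) x := by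
  rw [← inv_sum Finset.univ _
    (fun k _ => psia_int K S a _ (sym_int k t h0 h2 (gen f₀ g₀ g k)))]
  unfold wave
  congr 1
  funext ξ
  simp only []
  rw [← Finset.mul_sum, Fintype.sum_sum_type, Fintype.sum_bool, hf ξ]
  simp only [sym, gen]
  have e4 : ∑ j, ((2 * Real.pi * ξ j : ℝ) : ℂ) * Complex.I * sn t ξ * 𝓕 (g j : E d → ℂ) ξ =
      sn t ξ * ∑ j, ((2 * Real.pi * ξ j : ℝ) : ℂ) * Complex.I * 𝓕 (g j : E d → ℂ) ξ := by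
    rw [Finset.mul_sum]
    refine Finset.sum_congr rfl fun j _ => ?_
    ring
  rw [e4]
  ring

lemma vol_cu (d : ℕ) : 1 ≤ volume (Pool.Agent.N492.LS.cu 1 (0 : E d)) := by
  have h := Pool.Agent.N492.LS.parseval (d := d) 1 0 {0} (fun _ => 1)
  have e1 : ∀ x : E d, ‖Pool.Agent.N492.LS.tp {0} (fun _ => (1 : ℂ)) x‖ ^ 2 = 1 := by
    intro x
    unfold Pool.Agent.N492.LS.tp
    rw [Finset.sum_singleton, one_mul, Pool.Agent.N492.LS.norm_e]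
    norm_num
  simp only [e1] at h
  simp only [setIntegral_const, Finset.sum_singleton, smul_eq_mul, mul_one, norm_one, one_pow] at h
  have h3 : (1 : ℝ) ≤ volume.real (Pool.Agent.N492.LS.cu 1 (0 : E d)) := by
    rw [h]
    push_cast
    exact one_le_pow₀ (by norm_num)
  have h4 : volume (Pool.Agent.N492.LS.cu 1 (0 : E d)) ≠ ⊤ :=
    (Pool.Agent.N492.LS.cu_compact 1 0).measure_lt_top.ne
  rw [← ENNReal.ofReal_toReal h4, ← ENNReal.ofReal_one]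
  exact ENNReal.ofReal_le_ofReal h3

/-- the wave equation for multipliers from `L²(𝕋^d)` to `L^p(𝕋^d)`, given the local estimate -/
theorem fin4g (hEN : S_EN) (hYOU : S_YOU) (d : ℕ) (p : ℝ) (hp : 2 ≤ p)
    (K : 𝓢(E d, ℂ)) (hloc : ∃ C : ℝ, 0 < C ∧ ∀ (S : Finset (Fin d → ℤ)) (a : (Fin d → ℤ) → ℂ)
      (Λ : ℝ), 0 ≤ Λ → Lam p Λ S a → ∀ F : E d → ℂ, Integrable F → ∀ z : E d,
      ∫⁻ x in {x : E d | ∀ i, |x i - z i| ≤ 1}, ‖inv (fun ξ => psia K S a ξ * F ξ) x‖ₑ ^ p ≤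
        ENNReal.ofReal (C * Λ ^ p) * nrg (d + 1) (inv F) z ^ (p / 2)) :
    ∃ C : ℝ, 0 < C ∧ ∀ (S : Finset (Fin d → ℤ)) (a : (Fin d → ℤ) → ℂ) (Λ : ℝ), 0 ≤ Λ →
    Lam p Λ S a →
    ∀ (f₀ f₁ g₀ : 𝓢(E d, ℂ)) (g : Fin d → 𝓢(E d, ℂ)),
    (∀ x, f₁ x = g₀ x + ∑ j, lineDeriv ℝ (g j) x (EuclideanSpace.single j (1 : ℝ))) →
    ∀ t : ℝ, 0 ≤ t → t ≤ 2 →
      ∫⁻ x : E d, ‖wave (fun ξ => psia K S a ξ * 𝓕 (f₀ : E d → ℂ) ξ)
        (fun ξ => psia K S a ξ * 𝓕 (f₁ : E d → ℂ) ξ) t x‖ₑ ^ p ≤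
        ENNReal.ofReal (C * Λ ^ p) *
          ((∫⁻ x : E d, ‖f₀ x‖ₑ ^ p) + (∫⁻ x : E d, ‖g₀ x‖ₑ ^ p) +
            ∑ j, ∫⁻ x : E d, ‖g j x‖ₑ ^ p) := by
  obtain ⟨C1, hC1, h1⟩ := hloc
  obtain ⟨C2, hC2, h2⟩ := hEN d (d + 1) (by omega)
  obtain ⟨C3, hC3, h3⟩ := hYOU d (d + 1) (by omega) p hp
  refine ⟨((d : ℝ) + 2) ^ (p - 1) * C1 * C2 ^ (p / 2) * C3, by positivity, ?_⟩
  intro S a Λ hΛ hL f₀ f₁ g₀ g hf t h0 h2t
  have hp0 : 0 < p := by linarith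
  have hw := wave_eqa K S a f₀ f₁ g₀ g (fourier_gen f₁ g₀ g hf) t h0 h2t
  set P : Fin d ⊕ Bool → E d → ℂ := fun k x =>
    inv (fun ξ => psia K S a ξ * (sym k t ξ * 𝓕 (gen f₀ g₀ g k : E d → ℂ) ξ)) x with hP
  have hPc : ∀ k, Continuous (P k) := fun k =>
    inv_cont _ (psia_int K S a _ (sym_int k t h0 h2t (gen f₀ g₀ g k)))
  have hw' : ∀ x, wave (fun ξ => psia K S a ξ * 𝓕 (f₀ : E d → ℂ) ξ)
        (fun ξ => psia K S a ξ * 𝓕 (f₁ : E d → ℂ) ξ) t x = ∑ k : Fin d ⊕ Bool, P k x :=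
    fun x => hw x
  simp only [hw']
  have hms : ∀ k, Measurable fun x => ‖P k x‖ₑ ^ p :=
    fun k => ((hPc k).measurable.enorm).pow_const p
  have hcard : (Finset.univ : Finset (Fin d ⊕ Bool)).card = d + 2 := by simp
  have s1 : ∫⁻ x : E d, ‖∑ k : Fin d ⊕ Bool, P k x‖ₑ ^ p ≤
      ENNReal.ofReal (((d : ℝ) + 2) ^ (p - 1)) * ∑ k : Fin d ⊕ Bool, ∫⁻ x : E d, ‖P k x‖ₑ ^ p := by
    rw [← lintegral_finset_sum _ fun k _ => hms k, ← lintegral_const_mul']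
    · refine lintegral_mono fun x => ?_
      have h3 := pow_sum p (by linarith) (Finset.univ : Finset (Fin d ⊕ Bool)) (fun k => P k x)
      rw [hcard] at h3
      push_cast at h3
      exact h3
    · exact ENNReal.ofReal_ne_top
  have s2 : ∀ k, ∫⁻ x : E d, ‖P k x‖ₑ ^ p ≤ ENNReal.ofReal (C1 * Λ ^ p) *
      (ENNReal.ofReal (C2 ^ (p / 2)) * (ENNReal.ofReal C3 *
        ∫⁻ x : E d, ‖gen f₀ g₀ g k x‖ₑ ^ p)) := by
    intro k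
    have a1 := Pool.Agent.N492.LS.avg 1 (hms k)
    calc ∫⁻ x : E d, ‖P k x‖ₑ ^ p ≤ volume (Pool.Agent.N492.LS.cu 1 (0 : E d)) *
          ∫⁻ x : E d, ‖P k x‖ₑ ^ p := le_mul_of_one_le_left (by positivity) (vol_cu d)
      _ = ∫⁻ z : E d, ∫⁻ x in Pool.Agent.N492.LS.cu 1 z, ‖P k x‖ₑ ^ p := a1.symm
      _ ≤ ∫⁻ z : E d, ENNReal.ofReal (C1 * Λ ^ p) *
          (ENNReal.ofReal (C2 ^ (p / 2)) * nrg (d + 1) (gen f₀ g₀ g k) z ^ (p / 2)) := by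
          refine lintegral_mono fun z => ?_
          have b1 := h1 S a Λ hΛ hL _ (sym_int k t h0 h2t (gen f₀ g₀ g k)) z
          have b2 := h2 (gen f₀ g₀ g k) z t h0 h2t k
          have e0 : Pool.Agent.N492.LS.cu 1 z = {x : E d | ∀ i, |x i - z i| ≤ 1} := by
            unfold Pool.Agent.N492.LS.cu
            norm_num
          rw [e0]
          refine b1.trans ?_
          gcongr
          refine (ENNReal.rpow_le_rpow b2 (by positivity)).trans (le_of_eq ?_)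
          rw [ENNReal.mul_rpow_of_nonneg _ _ (by positivity),
            ENNReal.ofReal_rpow_of_nonneg hC2.le (by positivity)]
      _ = ENNReal.ofReal (C1 * Λ ^ p) * (ENNReal.ofReal (C2 ^ (p / 2)) *
          ∫⁻ z : E d, nrg (d + 1) (gen f₀ g₀ g k) z ^ (p / 2)) := by
          rw [lintegral_const_mul' _ _ ENNReal.ofReal_ne_top,
            lintegral_const_mul' _ _ ENNReal.ofReal_ne_top]
      _ ≤ _ := by
          gcongr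
          exact h3 _
  refine s1.trans ?_
  have s3 : ∑ k : Fin d ⊕ Bool, ∫⁻ x : E d, ‖(gen f₀ g₀ g k) x‖ₑ ^ p =
      (∫⁻ x : E d, ‖f₀ x‖ₑ ^ p) + (∫⁻ x : E d, ‖g₀ x‖ₑ ^ p) +
        ∑ j, ∫⁻ x : E d, ‖g j x‖ₑ ^ p := by
    rw [Fintype.sum_sum_type, Fintype.sum_bool, add_comm]
    rfl
  calc ENNReal.ofReal (((d : ℝ) + 2) ^ (p - 1)) * ∑ k : Fin d ⊕ Bool, ∫⁻ x : E d, ‖P k x‖ₑ ^ p ≤
      ENNReal.ofReal (((d : ℝ) + 2) ^ (p - 1)) * ∑ k : Fin d ⊕ Bool, ENNReal.ofReal (C1 * Λ ^ p) *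
      (ENNReal.ofReal (C2 ^ (p / 2)) * (ENNReal.ofReal C3 *
        ∫⁻ x : E d, ‖gen f₀ g₀ g k x‖ₑ ^ p)) := by
        gcongr with k _
        exact s2 k
    _ = _ := by
        rw [← Finset.mul_sum, ← Finset.mul_sum, ← Finset.mul_sum, s3]
        have e6 : ENNReal.ofReal (((d : ℝ) + 2) ^ (p - 1) * C1 * C2 ^ (p / 2) * C3 * Λ ^ p) =
            ENNReal.ofReal (((d : ℝ) + 2) ^ (p - 1)) * ENNReal.ofReal (C1 * Λ ^ p) *
              ENNReal.ofReal (C2 ^ (p / 2)) * ENNReal.ofReal C3 := by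
          rw [← ENNReal.ofReal_mul (by positivity), ← ENNReal.ofReal_mul (by positivity),
            ← ENNReal.ofReal_mul (by positivity)]
          congr 1
          ring
        rw [e6]
        ring

/-- the wave equation for multipliers from `L²(𝕋^d)` to `L^p(𝕋^d)` -/
theorem fin4 (hLL : S_LL) (hEN : S_EN) (hYOU : S_YOU) (d : ℕ) (p : ℝ) (hp : 2 ≤ p)
    (K : 𝓢(E d, ℂ)) (hc : HasCompactSupport (K : E d → ℂ)) :
    ∃ C : ℝ, 0 < C ∧ ∀ (S : Finset (Fin d → ℤ)) (a : (Fin d → ℤ) → ℂ) (Λ : ℝ), 0 ≤ Λ →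
    Lam p Λ S a →
    ∀ (f₀ f₁ g₀ : 𝓢(E d, ℂ)) (g : Fin d → 𝓢(E d, ℂ)),
    (∀ x, f₁ x = g₀ x + ∑ j, lineDeriv ℝ (g j) x (EuclideanSpace.single j (1 : ℝ))) →
    ∀ t : ℝ, 0 ≤ t → t ≤ 2 →
      ∫⁻ x : E d, ‖wave (fun ξ => psia K S a ξ * 𝓕 (f₀ : E d → ℂ) ξ)
        (fun ξ => psia K S a ξ * 𝓕 (f₁ : E d → ℂ) ξ) t x‖ₑ ^ p ≤
        ENNReal.ofReal (C * Λ ^ p) *
          ((∫⁻ x : E d, ‖f₀ x‖ₑ ^ p) + (∫⁻ x : E d, ‖g₀ x‖ₑ ^ p) +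
            ∑ j, ∫⁻ x : E d, ‖g j x‖ₑ ^ p) :=
  fin4g hEN hYOU d p hp K (hLL d (d + 1) p hp K hc)

end Pool.Agent.N303.LS
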