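import Pool.Agent.N303.LS.Stm5
import Pool.Agent.N303.LS.Fin4

/-!
# Project LT (helper303): the wave equation for data with spectrum near a `Λ(p)` set
-/

set_option autoImplicit false

namespace Pool.Agent.N303.LS

open MeasureTheory
open scoped ENNReal FourierTransform RealInnerProductSpace SchwartzMap

/-- a Schwartz function with transform `1` for `|ξ|_∞ ≤ 1/4` and `0` for `|ξ|_∞ ≥ 3/4` -/
lemma bump (d : ℕ) : ∃ K : 𝓢(E d, ℂ), (∀ ξ : E d, (∀ i, |ξ i| ≤ 1 / 4) → 𝓕 (K : E d → ℂ) ξ = 1) ∧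
    ∀ ξ : E d, (∃ i, 3 / 4 ≤ |ξ i|) → 𝓕 (K : E d → ℂ) ξ = 0 := by
  have hs : IsClosed {ξ : E d | ∃ i, 3 / 4 ≤ |ξ i|} := by
    have e : {ξ : E d | ∃ i, 3 / 4 ≤ |ξ i|} = ⋃ i, {ξ : E d | 3 / 4 ≤ |ξ i|} := by
      ext ξ
      simp
    rw [e]
    refine isClosed_iUnion_of_finite fun i => isClosed_le continuous_const ?_
    exact (continuous_apply i |>.comp (PiLp.continuous_ofLp 2 _)).abs
  have ht : IsClosed {ξ : E d | ∀ i, |ξ i| ≤ 1 / 4} := by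
    have e : {ξ : E d | ∀ i, |ξ i| ≤ 1 / 4} = ⋂ i, {ξ : E d | |ξ i| ≤ 1 / 4} := by
      ext ξ
      simp
    rw [e]
    refine isClosed_iInter fun i => isClosed_le ?_ continuous_const
    exact (continuous_apply i |>.comp (PiLp.continuous_ofLp 2 _)).abs
  have hd : Disjoint {ξ : E d | ∃ i, 3 / 4 ≤ |ξ i|} {ξ : E d | ∀ i, |ξ i| ≤ 1 / 4} := by
    rw [Set.disjoint_left]
    rintro ξ ⟨i, hi⟩ h
    have := h i
    linarith
  obtain ⟨f, hf0, hf1, -⟩ := exists_contMDiffMap_zero_one_of_isClosed (n := (⊤ : ℕ∞))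
    (modelWithCornersSelf ℝ (E d)) hs ht hd
  have hfc : ContDiff ℝ (⊤ : ℕ∞) (f : E d → ℝ) := f.contMDiff.contDiff
  have hcs : HasCompactSupport fun ξ : E d => ((f ξ : ℝ) : ℂ) := by
    refine HasCompactSupport.of_support_subset_isCompact
      (K := Metric.closedBall (0 : E d) (d + 1)) (isCompact_closedBall _ _) ?_
    intro ξ hξ
    rw [Metric.mem_closedBall, dist_zero_right]
    by_contra hcon
    push Not at hcon
    apply hξ
    have hz : f ξ = 0 := by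
      refine hf0 ?_
      by_contra hno
      simp only [Set.mem_setOf_eq, not_exists, not_le] at hno
      have h1 : ‖ξ‖ ≤ d + 1 := by
        rw [EuclideanSpace.norm_eq]
        refine Real.sqrt_le_iff.2 ⟨by positivity, ?_⟩
        calc ∑ i, ‖ξ i‖ ^ 2 ≤ ∑ _i : Fin d, (1 : ℝ) := by
              refine Finset.sum_le_sum fun i _ => ?_
              rw [Real.norm_eq_abs]
              have := hno i
              have h0 := abs_nonneg (ξ i)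
              nlinarith
          _ = d := by simp
          _ ≤ (d + 1 : ℝ) ^ 2 := by nlinarith [(Nat.cast_nonneg d : (0 : ℝ) ≤ d)]
      linarith
    simp [hz]
  have hcd : ContDiff ℝ (⊤ : ℕ∞) fun ξ : E d => ((f ξ : ℝ) : ℂ) :=
    Complex.ofRealCLM.contDiff.comp hfc
  set φ : 𝓢(E d, ℂ) := hcs.toSchwartzMap hcd with hφ
  refine ⟨𝓕⁻ φ, ?_, ?_⟩
  · intro ξ h
    rw [← SchwartzMap.fourier_coe, FourierTransform.fourier_fourierInv_eq]
    show ((f ξ : ℝ) : ℂ) = 1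
    rw [show f ξ = 1 from hf1 h]
    norm_num
  · intro ξ h
    rw [← SchwartzMap.fourier_coe, FourierTransform.fourier_fourierInv_eq]
    show ((f ξ : ℝ) : ℂ) = 0
    rw [show f ξ = 0 from hf0 h]
    norm_num

/-- on the spectrum the cut-off is `1` -/
lemma psia_one {d : ℕ} (K : 𝓢(E d, ℂ))
    (h1 : ∀ ξ : E d, (∀ i, |ξ i| ≤ 1 / 4) → 𝓕 (K : E d → ℂ) ξ = 1)
    (h0 : ∀ ξ : E d, (∃ i, 3 / 4 ≤ |ξ i|) → 𝓕 (K : E d → ℂ) ξ = 0)
    (S : Finset (Fin d → ℤ)) (m : Fin d → ℤ) (hm : m ∈ S) (ξ : E d)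
    (hξ : ∀ i, |ξ i - m i| ≤ 1 / 4) : psia K S (fun _ => 1) ξ = 1 := by
  unfold psia
  rw [Finset.sum_eq_single_of_mem m hm]
  · rw [one_mul]
    refine h1 _ fun i => ?_
    simpa [pt] using hξ i
  · intro n _ hnm
    rw [one_mul]
    refine h0 _ ?_
    obtain ⟨i, hi⟩ : ∃ i, n i ≠ m i := by
      by_contra hcon
      push Not at hcon
      exact hnm (funext hcon)
    refine ⟨i, ?_⟩
    have e : (ξ - pt n) i = ξ i - n i := by simp [pt]
    rw [e]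
    have h2 : (1 : ℝ) ≤ |(m i : ℝ) - n i| := by
      have : (1 : ℤ) ≤ |m i - n i| := Int.one_le_abs (sub_ne_zero.2 (Ne.symm hi))
      exact_mod_cast this
    have h3 := hξ i
    have h4 : |(m i : ℝ) - n i| ≤ |ξ i - n i| + |ξ i - m i| := by
      have : (m i : ℝ) - n i = (ξ i - n i) - (ξ i - m i) := by ring
      rw [this]
      exact abs_sub _ _
    linarith

/-- off the finite set the cut-off is `0` -/
lemma psia_zero {d : ℕ} (K : 𝓢(E d, ℂ))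
    (h0 : ∀ ξ : E d, (∃ i, 3 / 4 ≤ |ξ i|) → 𝓕 (K : E d → ℂ) ξ = 0)
    (S : Finset (Fin d → ℤ)) (m : Fin d → ℤ) (hm : m ∉ S) (ξ : E d)
    (hξ : ∀ i, |ξ i - m i| ≤ 1 / 4) : psia K S (fun _ => 1) ξ = 0 := by
  unfold psia
  refine Finset.sum_eq_zero fun n hn => ?_
  have hnm : n ≠ m := fun h => hm (h ▸ hn)
  rw [one_mul]
  refine h0 _ ?_
  obtain ⟨i, hi⟩ : ∃ i, n i ≠ m i := by
    by_contra hcon
    push Not at hcon
    exact hnm (funext hcon)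
  refine ⟨i, ?_⟩
  have e : (ξ - pt n) i = ξ i - n i := by simp [pt]
  rw [e]
  have h2 : (1 : ℝ) ≤ |(m i : ℝ) - n i| := by
    have : (1 : ℤ) ≤ |m i - n i| := Int.one_le_abs (sub_ne_zero.2 (Ne.symm hi))
    exact_mod_cast this
  have h3 := hξ i
  have h4 : |(m i : ℝ) - n i| ≤ |ξ i - n i| + |ξ i - m i| := by
    have : (m i : ℝ) - n i = (ξ i - n i) - (ξ i - m i) := by ring
    rw [this]
    exact abs_sub _ _
  linarith

/-- `S` is a `Λ(p)` set with constant `Λ` -/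
def LamSet {d : ℕ} (p Λ : ℝ) (S : Set (Fin d → ℤ)) : Prop :=
  ∀ T : Finset (Fin d → ℤ), (T : Set (Fin d → ℤ)) ⊆ S → ∀ c : (Fin d → ℤ) → ℂ,
    ∫⁻ x in {x : E d | ∀ i, x i ∈ Set.Ico (0 : ℝ) 1}, ‖∑ m ∈ T, c m *
      Complex.exp (((2 * Real.pi * ⟪x, pt m⟫ : ℝ) : ℂ) * Complex.I)‖ₑ ^ p ≤
      ENNReal.ofReal (Λ ^ p) * (∑ m ∈ T, ‖c m‖ₑ ^ (2 : ℝ)) ^ (p / 2)

/-- the spectrum of `f` is in `S + [-1/4, 1/4]^d` -/
def Spec {d : ℕ} (S : Set (Fin d → ℤ)) (f : 𝓢(E d, ℂ)) : Prop :=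
  ∀ ξ : E d, 𝓕 (f : E d → ℂ) ξ ≠ 0 → ∃ m ∈ S, ∀ i, |ξ i - m i| ≤ 1 / 4

/-- the wave equation for data with spectrum near a `Λ(p)` set -/
theorem fin5 (hLLG : S_LLG) (hEN : S_EN) (hYOU : S_YOU) (d : ℕ) (p : ℝ) (hp : 2 ≤ p) :
    ∃ C : ℝ, 0 < C ∧ ∀ (S : Set (Fin d → ℤ)) (Λ : ℝ), 0 ≤ Λ → LamSet p Λ S →
    ∀ (f₀ f₁ g₀ : 𝓢(E d, ℂ)) (g : Fin d → 𝓢(E d, ℂ)), Spec S f₀ → Spec S f₁ →
    (∀ x, f₁ x = g₀ x + ∑ j, lineDeriv ℝ (g j) x (EuclideanSpace.single j (1 : ℝ))) →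
    ∀ t : ℝ, 0 ≤ t → t ≤ 2 →
      ∫⁻ x : E d, ‖wave (𝓕 (f₀ : E d → ℂ)) (𝓕 (f₁ : E d → ℂ)) t x‖ₑ ^ p ≤
        ENNReal.ofReal (C * Λ ^ p) *
          ((∫⁻ x : E d, ‖f₀ x‖ₑ ^ p) + (∫⁻ x : E d, ‖g₀ x‖ₑ ^ p) +
            ∑ j, ∫⁻ x : E d, ‖g j x‖ₑ ^ p) := by
  classical
  obtain ⟨K, k1, k0⟩ := bump d
  obtain ⟨C, hC, h⟩ := fin4g hEN hYOU d p hp K (hLLG d (d + 1) p hp K)
  refine ⟨C, hC, ?_⟩
  intro S Λ hΛ hS f₀ f₁ g₀ g s0 s1 hf t ht0 ht2
  set T : ℕ → Finset (Fin d → ℤ) := fun N =>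
    (Fintype.piFinset fun _ => Finset.Icc (-(N : ℤ)) N).filter (· ∈ S) with hT
  have hTS : ∀ N, (T N : Set (Fin d → ℤ)) ⊆ S := by
    intro N m hm
    have hm' : m ∈ T N := hm
    rw [hT, Finset.mem_filter] at hm'
    exact hm'.2
  have hTm : ∀ m ∈ S, ∀ᶠ N : ℕ in Filter.atTop, m ∈ T N := by
    intro m hm
    obtain ⟨N0, hN0⟩ : ∃ N0 : ℕ, ∀ i, |m i| ≤ N0 := by
      refine ⟨∑ i, (m i).natAbs, fun i => ?_⟩
      have : (m i).natAbs ≤ ∑ i, (m i).natAbs :=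
        Finset.single_le_sum (f := fun i => (m i).natAbs) (fun _ _ => Nat.zero_le _)
          (Finset.mem_univ i)
      have h2 : |m i| = ((m i).natAbs : ℤ) := Int.abs_eq_natAbs _
      rw [h2]
      exact_mod_cast this
    filter_upwards [Filter.eventually_ge_atTop N0] with N hN
    rw [hT]
    simp only [Finset.mem_filter, Fintype.mem_piFinset, Finset.mem_Icc]
    refine ⟨fun i => ?_, hm⟩
    have h3 := (hN0 i).trans (show ((N0 : ℕ) : ℤ) ≤ N by exact_mod_cast hN)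
    exact abs_le.1 h3
  have hLam : ∀ N, Lam p Λ (T N) (fun _ => 1) := by
    intro N c
    have := hS (T N) (hTS N) c
    simpa only [one_mul] using this
  have hN := fun N => h (T N) (fun _ => 1) Λ hΛ (hLam N) f₀ f₁ g₀ g hf t ht0 ht2
  -- the cut-off converges to `1` on the spectrum
  have hlim : ∀ (f : 𝓢(E d, ℂ)), Spec S f → ∀ ξ, Filter.Tendsto
      (fun N => psia K (T N) (fun _ => 1) ξ * 𝓕 (f : E d → ℂ) ξ) Filter.atTop
      (nhds (𝓕 (f : E d → ℂ) ξ)) := by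
    intro f hfS ξ
    by_cases hz : 𝓕 (f : E d → ℂ) ξ = 0
    · simp [hz]
    · obtain ⟨m, hm, hmξ⟩ := hfS ξ hz
      refine tendsto_const_nhds.congr' ?_
      filter_upwards [hTm m hm] with N hmN
      rw [psia_one K k1 k0 (T N) m hmN ξ hmξ, one_mul]
  have hbd : ∀ (f : 𝓢(E d, ℂ)), Spec S f → ∀ N ξ,
      ‖psia K (T N) (fun _ => 1) ξ * 𝓕 (f : E d → ℂ) ξ‖ ≤ ‖𝓕 (f : E d → ℂ) ξ‖ := by
    intro f hfS N ξ
    by_cases hz : 𝓕 (f : E d → ℂ) ξ = 0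
    · simp [hz]
    · obtain ⟨m, hm, hmξ⟩ := hfS ξ hz
      by_cases hmN : m ∈ T N
      · rw [psia_one K k1 k0 (T N) m hmN ξ hmξ, one_mul]
      · rw [psia_zero K k0 (T N) m hmN ξ hmξ, zero_mul, norm_zero]
        exact norm_nonneg _
  have hFi : ∀ f : 𝓢(E d, ℂ), Integrable (𝓕 (f : E d → ℂ)) := fun f => by
    have h := (𝓕 f : 𝓢(E d, ℂ)).integrable (μ := volume)
    rwa [SchwartzMap.fourier_coe] at h
  have hcs : ∀ ξ : E d, ‖cs t ξ‖ ≤ 2 := fun ξ => sym_le (Sum.inr true) t ht0 ht2 ξ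
  have hsn : ∀ ξ : E d, ‖sn t ξ‖ ≤ 2 := fun ξ => sym_le (Sum.inr false) t ht0 ht2 ξ
  have hcsm : Measurable (cs t : E d → ℂ) := sym_meas (Sum.inr true) t
  have hsnm : Measurable (sn t : E d → ℂ) := sym_meas (Sum.inr false) t
  -- the integrands
  have hint : ∀ N, Integrable fun ξ => cs t ξ * (psia K (T N) (fun _ => 1) ξ * 𝓕 (f₀ : E d → ℂ) ξ) +
      sn t ξ * (psia K (T N) (fun _ => 1) ξ * 𝓕 (f₁ : E d → ℂ) ξ) := by
    intro N
    refine Integrable.add ?_ ?_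
    · exact (psia_int K (T N) (fun _ => 1) _ (hFi f₀)).bdd_mul hcsm.aestronglyMeasurable
        (Filter.Eventually.of_forall hcs)
    · exact (psia_int K (T N) (fun _ => 1) _ (hFi f₁)).bdd_mul hsnm.aestronglyMeasurable
        (Filter.Eventually.of_forall hsn)
  have hwl : ∀ x, Filter.Tendsto (fun N => wave (fun ξ => psia K (T N) (fun _ => 1) ξ *
      𝓕 (f₀ : E d → ℂ) ξ) (fun ξ => psia K (T N) (fun _ => 1) ξ * 𝓕 (f₁ : E d → ℂ) ξ) t x)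
      Filter.atTop (nhds (wave (𝓕 (f₀ : E d → ℂ)) (𝓕 (f₁ : E d → ℂ)) t x)) := by
    intro x
    unfold wave inv
    refine tendsto_integral_of_dominated_convergence
      (fun ξ => 2 * ‖𝓕 (f₀ : E d → ℂ) ξ‖ + 2 * ‖𝓕 (f₁ : E d → ℂ) ξ‖) ?_ ?_ ?_ ?_
    · intro N
      refine AEStronglyMeasurable.mul ?_ (hint N).1
      refine Continuous.aestronglyMeasurable ?_
      fun_prop
    · exact ((hFi f₀).norm.const_mul 2).add ((hFi f₁).norm.const_mul 2)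
    · intro N
      refine Filter.Eventually.of_forall fun ξ => ?_
      rw [norm_mul, Complex.norm_exp_ofReal_mul_I, one_mul]
      refine (norm_add_le _ _).trans (add_le_add ?_ ?_)
      · rw [norm_mul]
        exact mul_le_mul (hcs ξ) (hbd f₀ s0 N ξ) (norm_nonneg _) (by norm_num)
      · rw [norm_mul]
        exact mul_le_mul (hsn ξ) (hbd f₁ s1 N ξ) (norm_nonneg _) (by norm_num)
    · refine Filter.Eventually.of_forall fun ξ => ?_
      exact ((((hlim f₀ s0 ξ).const_mul _).add ((hlim f₁ s1 ξ).const_mul _)).const_mul _)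
  have hmeas : ∀ N, Measurable fun x => ‖wave (fun ξ => psia K (T N) (fun _ => 1) ξ *
      𝓕 (f₀ : E d → ℂ) ξ) (fun ξ => psia K (T N) (fun _ => 1) ξ * 𝓕 (f₁ : E d → ℂ) ξ) t x‖ₑ ^ p := by
    intro N
    have hc := inv_cont _ (hint N)
    exact (hc.measurable.enorm).pow_const p
  have hpt : ∀ x, ‖wave (𝓕 (f₀ : E d → ℂ)) (𝓕 (f₁ : E d → ℂ)) t x‖ₑ ^ p =
      Filter.liminf (fun N => ‖wave (fun ξ => psia K (T N) (fun _ => 1) ξ *
      𝓕 (f₀ : E d → ℂ) ξ) (fun ξ => psia K (T N) (fun _ => 1) ξ * 𝓕 (f₁ : E d → ℂ) ξ) t x‖ₑ ^ p)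
      Filter.atTop := by
    intro x
    have h1 := ((continuous_enorm.tendsto _).comp (hwl x))
    have h2 := (ENNReal.continuous_rpow_const (y := p)).tendsto
      (‖wave (𝓕 (f₀ : E d → ℂ)) (𝓕 (f₁ : E d → ℂ)) t x‖ₑ)
    exact ((h2.comp h1).liminf_eq).symm
  rw [lintegral_congr hpt]
  refine (lintegral_liminf_le hmeas).trans ?_
  refine (Filter.liminf_le_liminf (Filter.Eventually.of_forall hN)).trans ?_
  rw [Filter.liminf_const]

end Pool.Agent.N303.LS
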