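import Pool.Agent.N303.LS.Stm6
import Pool.Agent.N303.LS.Fin5

/-!
# Project LG (helper303): spectra with growing `Λ(p)` constants
-/

set_option autoImplicit false

namespace Pool.Agent.N303.LS

open MeasureTheory
open scoped ENNReal FourierTransform RealInnerProductSpace SchwartzMap

/-- the maximum norm of a lattice point -/
def nm {d : ℕ} (m : Fin d → ℤ) : ℕ := Finset.univ.sup fun i => (m i).natAbs

lemma natAbs_le_nm {d : ℕ} (m : Fin d → ℤ) (i : Fin d) : (m i).natAbs ≤ nm m :=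
  Finset.le_sup (f := fun i => (m i).natAbs) (Finset.mem_univ i)

open Classical in
/-- the points of `S` in a dyadic shell -/
noncomputable def cl {d : ℕ} (S : Set (Fin d → ℤ)) (c : ℕ) : Finset (Fin d → ℤ) :=
  (Fintype.piFinset fun _ => Finset.Icc (-(2 ^ c : ℤ)) (2 ^ c)).filter
    fun m => m ∈ S ∧ Nat.size (nm m) = c

lemma abs_lt_of_size {d : ℕ} (m : Fin d → ℤ) (c : ℕ) (h : Nat.size (nm m) = c) (i : Fin d) :
    |m i| < 2 ^ c := by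
  have h1 : nm m < 2 ^ c := Nat.size_le.1 h.le
  have h2 : (m i).natAbs < 2 ^ c := (natAbs_le_nm m i).trans_lt h1
  rw [Int.abs_eq_natAbs]
  exact_mod_cast h2

open Classical in
lemma mem_cl {d : ℕ} (S : Set (Fin d → ℤ)) (c : ℕ) (m : Fin d → ℤ) :
    m ∈ cl S c ↔ m ∈ S ∧ Nat.size (nm m) = c := by
  unfold cl
  rw [Finset.mem_filter, Fintype.mem_piFinset]
  constructor
  · exact fun h => h.2
  · intro h
    refine ⟨fun i => ?_, h⟩
    have := abs_lt_of_size m c h.2 i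
    rw [Finset.mem_Icc]
    exact abs_le.1 this.le

/-- in the shell `c = k + 1` the points near `m` are in the dyadic annulus -/
lemma shell {d : ℕ} (m : Fin d → ℤ) (k : ℕ) (h : Nat.size (nm m) = k + 1) (ξ : E d)
    (hξ : ∀ i, |ξ i - m i| ≤ 1 / 4) :
    (∃ i, (2 : ℝ) ^ k * (3 / 4) ≤ |ξ i|) ∧ ∀ i, |ξ i| ≤ (2 : ℝ) ^ k * (9 / 4) := by
  have hk : (1 : ℝ) ≤ 2 ^ k := one_le_pow₀ (by norm_num)
  constructor
  · have h1 : 2 ^ k ≤ nm m := Nat.lt_size.1 (by omega)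
    obtain ⟨i, hi⟩ : ∃ i, 2 ^ k ≤ (m i).natAbs := by
      by_contra hcon
      push Not at hcon
      have h2 : nm m < 2 ^ k := by
        unfold nm
        rw [Finset.sup_lt_iff (by positivity)]
        exact fun i _ => hcon i
      omega
    refine ⟨i, ?_⟩
    have h3 : (2 : ℝ) ^ k ≤ |(m i : ℝ)| := by
      have : ((2 ^ k : ℕ) : ℤ) ≤ |m i| := by
        rw [Int.abs_eq_natAbs]
        exact_mod_cast hi
      exact_mod_cast this
    have h4 := hξ i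
    have h5 : |(m i : ℝ)| ≤ |ξ i| + |ξ i - m i| := by
      have : (m i : ℝ) = ξ i - (ξ i - m i) := by ring
      calc |(m i : ℝ)| = |ξ i - (ξ i - m i)| := by rw [← this]
        _ ≤ _ := abs_sub _ _
    nlinarith
  · intro i
    have h1 := abs_lt_of_size m (k + 1) h i
    have h2 : |(m i : ℝ)| < 2 ^ (k + 1) := by exact_mod_cast h1
    have h4 := hξ i
    have h5 : |ξ i| ≤ |(m i : ℝ)| + |ξ i - m i| := by
      have : ξ i = (m i : ℝ) + (ξ i - m i) := by ring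
      calc |ξ i| = |(m i : ℝ) + (ξ i - m i)| := by rw [← this]
        _ ≤ _ := abs_add_le _ _
    rw [pow_succ] at h2
    nlinarith

/-- the value of the cut-off of a shell on the spectrum -/
lemma psia_cl {d : ℕ} (K : 𝓢(E d, ℂ))
    (h1 : ∀ ξ : E d, (∀ i, |ξ i| ≤ 1 / 4) → 𝓕 (K : E d → ℂ) ξ = 1)
    (h0 : ∀ ξ : E d, (∃ i, 3 / 4 ≤ |ξ i|) → 𝓕 (K : E d → ℂ) ξ = 0)
    (S : Set (Fin d → ℤ)) (m : Fin d → ℤ) (hm : m ∈ S) (ξ : E d)
    (hξ : ∀ i, |ξ i - m i| ≤ 1 / 4) (c : ℕ) :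
    psia K (cl S c) (fun _ => 1) ξ = if Nat.size (nm m) = c then 1 else 0 := by
  by_cases h : Nat.size (nm m) = c
  · rw [if_pos h]
    exact psia_one K h1 h0 _ m ((mem_cl S c m).2 ⟨hm, h⟩) ξ hξ
  · rw [if_neg h]
    exact psia_zero K h0 _ m (fun hc => h ((mem_cl S c m).1 hc).2) ξ hξ

/-- summation of the norms of the shells -/
lemma geo {d : ℕ} (p : ℝ) (hp : 1 ≤ p) (w : ℕ → E d → ℂ) (hw : ∀ c, Continuous (w c)) (Q q : ℝ)
    (hQ : 0 ≤ Q) (hq0 : 0 ≤ q) (hq1 : q < 1) (B : ℝ≥0∞)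
    (h : ∀ c, ∫⁻ x, ‖w c x‖ₑ ^ p ≤ ENNReal.ofReal (Q ^ p * (q ^ p) ^ c) * B) (N : ℕ) :
    ∫⁻ x, ‖∑ c ∈ Finset.range N, w c x‖ₑ ^ p ≤ ENNReal.ofReal ((Q / (1 - q)) ^ p) * B := by
  have hp0 : 0 < p := by linarith
  have hpt : ENNReal.ofReal p ≠ 0 := by
    rw [Ne, ENNReal.ofReal_eq_zero]
    linarith
  have hpt2 : ENNReal.ofReal p ≠ ⊤ := ENNReal.ofReal_ne_top
  have e1 : ∀ f : E d → ℂ, eLpNorm f (ENNReal.ofReal p) volume = (∫⁻ x, ‖f x‖ₑ ^ p) ^ (1 / p) := by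
    intro f
    rw [eLpNorm_eq_lintegral_rpow_enorm_toReal hpt hpt2, ENNReal.toReal_ofReal hp0.le]
  have h2 : ∀ c, eLpNorm (w c) (ENNReal.ofReal p) volume ≤
      ENNReal.ofReal (Q * q ^ c) * B ^ (1 / p) := by
    intro c
    rw [e1]
    refine (ENNReal.rpow_le_rpow (h c) (by positivity)).trans (le_of_eq ?_)
    rw [ENNReal.mul_rpow_of_nonneg _ _ (by positivity),
      ENNReal.ofReal_rpow_of_nonneg (by positivity) (by positivity)]
    congr 2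
    have e2 : Q ^ p * (q ^ p) ^ c = (Q * q ^ c) ^ p := by
      rw [Real.mul_rpow hQ (by positivity), ← Real.rpow_natCast (q ^ p) c, ← Real.rpow_mul hq0,
        ← Real.rpow_natCast q c, ← Real.rpow_mul hq0, mul_comm p]
    rw [e2, ← Real.rpow_mul (by positivity), mul_one_div, div_self hp0.ne', Real.rpow_one]
  have h3 : eLpNorm (∑ c ∈ Finset.range N, w c) (ENNReal.ofReal p) volume ≤
      ENNReal.ofReal (Q / (1 - q)) * B ^ (1 / p) := by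
    refine (eLpNorm_sum_le (fun c _ => (hw c).aestronglyMeasurable)
      (by rw [← ENNReal.ofReal_one]; exact ENNReal.ofReal_le_ofReal hp)).trans ?_
    refine (Finset.sum_le_sum fun c _ => h2 c).trans ?_
    rw [← Finset.sum_mul, ← ENNReal.ofReal_sum_of_nonneg fun c _ => by positivity,
      ← Finset.mul_sum]
    gcongr
    rw [div_eq_mul_inv]
    gcongr
    have hs := (summable_geometric_of_lt_one hq0 hq1)
    calc ∑ c ∈ Finset.range N, q ^ c ≤ ∑' c, q ^ c :=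
          hs.sum_le_tsum _ fun c _ => by positivity
      _ = (1 - q)⁻¹ := tsum_geometric_of_lt_one hq0 hq1
  rw [e1] at h3
  have h4 := ENNReal.rpow_le_rpow h3 hp0.le
  rw [← ENNReal.rpow_mul, one_div_mul_cancel hp0.ne', ENNReal.rpow_one,
    ENNReal.mul_rpow_of_nonneg _ _ hp0.le, ← ENNReal.rpow_mul, one_div_mul_cancel hp0.ne',
    ENNReal.rpow_one, ENNReal.ofReal_rpow_of_nonneg (div_nonneg hQ (by linarith)) hp0.le] at h4
  simpa only [Finset.sum_apply] using h4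

lemma psia_cont {d : ℕ} (K : 𝓢(E d, ℂ)) (S : Finset (Fin d → ℤ)) (a : (Fin d → ℤ) → ℂ) :
    Continuous (psia K S a) := by
  have hc : Continuous (𝓕 (K : E d → ℂ)) := by
    have h := (𝓕 K : 𝓢(E d, ℂ)).continuous
    rwa [SchwartzMap.fourier_coe] at h
  unfold psia
  exact continuous_finset_sum _ fun m _ =>
    continuous_const.mul (hc.comp (continuous_id.sub continuous_const))

lemma four_int {d : ℕ} (f : 𝓢(E d, ℂ)) : Integrable (𝓕 (f : E d → ℂ)) := by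
  have h := (𝓕 f : 𝓢(E d, ℂ)).integrable (μ := volume)
  rwa [SchwartzMap.fourier_coe] at h

/-- the integrand of the wave is integrable -/
lemma wint {d : ℕ} (t : ℝ) (ht0 : 0 ≤ t) (ht2 : t ≤ 2) (F₀ F₁ : E d → ℂ) (h0 : Integrable F₀)
    (h1 : Integrable F₁) : Integrable fun ξ => cs t ξ * F₀ ξ + sn t ξ * F₁ ξ := by
  refine Integrable.add ?_ ?_
  · exact h0.bdd_mul (sym_meas (Sum.inr true) t).aestronglyMeasurable
      (Filter.Eventually.of_forall fun ξ => sym_le (Sum.inr true) t ht0 ht2 ξ)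
  · exact h1.bdd_mul (sym_meas (Sum.inr false) t).aestronglyMeasurable
      (Filter.Eventually.of_forall fun ξ => sym_le (Sum.inr false) t ht0 ht2 ξ)

/-- the data: `u₀` and `u₁` generated by Bessel potentials of order `s' < s` -/
lemma data {d : ℕ} (s s' : ℝ) (u₀ u₁ : 𝓢(E d, ℂ)) :
    ∃ (F₀ F₁ : 𝓢(E d, ℂ)) (hh : Fin d ⊕ Bool → 𝓢(E d, ℂ)),
      (∀ x, F₀ x = inv (fun ξ => bes s ξ * 𝓕 (u₀ : E d → ℂ) ξ) x) ∧
      (∀ x, F₁ x = inv (fun ξ => bes (s - 1) ξ * 𝓕 (u₁ : E d → ℂ) ξ) x) ∧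
      (∀ x, hh (Sum.inr true) x = inv (fun ξ => bes (-(s - s')) ξ * 𝓕 (F₀ : E d → ℂ) ξ) x) ∧
      (∀ x, hh (Sum.inr false) x =
        inv (fun ξ => bes (-(1 + (s - s'))) ξ * 𝓕 (F₁ : E d → ℂ) ξ) x) ∧
      (∀ j x, hh (Sum.inl j) x = inv (fun ξ => ((2 * Real.pi * ξ j : ℝ) : ℂ) * Complex.I *
        bes (-(1 + (s - s'))) ξ * 𝓕 ((-F₁ : 𝓢(E d, ℂ)) : E d → ℂ) ξ) x) ∧
      (∀ ξ, 𝓕 (u₀ : E d → ℂ) ξ = bes (-s') ξ * 𝓕 (hh (Sum.inr true) : E d → ℂ) ξ) ∧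
      ∀ ξ, 𝓕 (u₁ : E d → ℂ) ξ = bes (-s') ξ * 𝓕 (hh (Sum.inr false) : E d → ℂ) ξ +
        ∑ j, ((2 * Real.pi * ξ j : ℝ) : ℂ) * Complex.I *
          (bes (-s') ξ * 𝓕 (hh (Sum.inl j) : E d → ℂ) ξ) := by
  obtain ⟨F₀, hF0, hF0x⟩ := mult (bes s) (bes_tg s) u₀
  obtain ⟨F₁, hF1, hF1x⟩ := mult (bes (s - 1)) (bes_tg (s - 1)) u₁
  obtain ⟨H₀, hH0, hH0x⟩ := mult (bes (-(s - s'))) (bes_tg _) F₀
  obtain ⟨H₁, hH1, hH1x⟩ := mult (bes (-(1 + (s - s')))) (bes_tg _) F₁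
  have hj : ∀ j : Fin d, ∃ h : 𝓢(E d, ℂ), (∀ ξ, 𝓕 (h : E d → ℂ) ξ =
      (((2 * Real.pi * ξ j : ℝ) : ℂ) * Complex.I * bes (-(1 + (s - s'))) ξ) *
        𝓕 ((-F₁ : 𝓢(E d, ℂ)) : E d → ℂ) ξ) ∧
      ∀ x, h x = inv (fun ξ => (((2 * Real.pi * ξ j : ℝ) : ℂ) * Complex.I *
        bes (-(1 + (s - s'))) ξ) * 𝓕 ((-F₁ : 𝓢(E d, ℂ)) : E d → ℂ) ξ) x := fun j =>
    mult (fun ξ => ((2 * Real.pi * ξ j : ℝ) : ℂ) * Complex.I * bes (-(1 + (s - s'))) ξ)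
      ((coord_tg j).mul (bes_tg _)) (-F₁)
  choose G hG hGx using hj
  have nF : ∀ ξ, 𝓕 ((-F₁ : 𝓢(E d, ℂ)) : E d → ℂ) ξ = - 𝓕 (F₁ : E d → ℂ) ξ := by
    intro ξ
    rw [← SchwartzMap.fourier_coe, ← SchwartzMap.fourier_coe, FourierTransform.fourier_neg]
    rfl
  refine ⟨F₀, F₁, fun k => match k with
    | Sum.inl j => G j
    | Sum.inr true => H₀
    | Sum.inr false => H₁, hF0x, hF1x, hH0x, hH1x, hGx, ?_, ?_⟩
  · intro ξ
    show _ = bes (-s') ξ * 𝓕 (H₀ : E d → ℂ) ξ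
    rw [hH0, hF0, ← mul_assoc, ← mul_assoc, bes_mul, bes_mul]
    have : -s' + -(s - s') + s = 0 := by ring
    rw [this, bes_zero, one_mul]
  · intro ξ
    show _ = bes (-s') ξ * 𝓕 (H₁ : E d → ℂ) ξ + ∑ j, ((2 * Real.pi * ξ j : ℝ) : ℂ) * Complex.I *
          (bes (-s') ξ * 𝓕 (G j : E d → ℂ) ξ)
    simp only [hG, hH1, hF1, nF]
    have n2 : bes (-s') ξ * (bes (-(1 + (s - s'))) ξ * (bes (s - 1) ξ * 𝓕 (u₁ : E d → ℂ) ξ)) =
        bes (-2) ξ * 𝓕 (u₁ : E d → ℂ) ξ := by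
      rw [← mul_assoc, ← mul_assoc, bes_mul, bes_mul]
      congr 2
      ring
    have n3 : ∀ j : Fin d, ((2 * Real.pi * ξ j : ℝ) : ℂ) * Complex.I * (bes (-s') ξ *
        ((((2 * Real.pi * ξ j : ℝ) : ℂ) * Complex.I * bes (-(1 + (s - s'))) ξ) *
          -(bes (s - 1) ξ * 𝓕 (u₁ : E d → ℂ) ξ))) =
        ((4 * Real.pi ^ 2 * (ξ j) ^ 2 : ℝ) : ℂ) * (bes (-2) ξ * 𝓕 (u₁ : E d → ℂ) ξ) := by
      intro j
      rw [← n2]
      have hI := Complex.I_mul_I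
      push_cast
      linear_combination (-(4 * (Real.pi : ℂ) ^ 2 * (ξ j : ℂ) ^ 2) * (bes (-s') ξ *
        (bes (-(1 + (s - s'))) ξ * (bes (s - 1) ξ * 𝓕 (u₁ : E d → ℂ) ξ)))) * hI
    simp only [n3]
    rw [n2, ← Finset.sum_mul]
    have n4 : (1 : ℂ) + ∑ j, ((4 * Real.pi ^ 2 * (ξ j) ^ 2 : ℝ) : ℂ) = bes 2 ξ := by
      rw [bes_two, ← Complex.ofReal_sum, ← Complex.ofReal_one, ← Complex.ofReal_add]
      congr 2
      rw [EuclideanSpace.norm_sq_eq, Finset.mul_sum]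
      refine Finset.sum_congr rfl fun j _ => ?_
      rw [Real.norm_eq_abs, sq_abs]
    have n5 : bes 2 ξ * bes (-2) ξ = 1 := by
      rw [bes_mul]
      norm_num [bes_zero]
    linear_combination (-(bes (-2) ξ * 𝓕 (u₁ : E d → ℂ) ξ)) * n4 - (𝓕 (u₁ : E d → ℂ) ξ) * n5

end Pool.Agent.N303.LS
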