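import Pool.Agent.N303.LS.Fin6

/-!
# Project LG (helper303): the theorem for spectra with growing `Λ(p)` constants
-/

set_option autoImplicit false

namespace Pool.Agent.N303.LS

open MeasureTheory
open scoped ENNReal FourierTransform RealInnerProductSpace SchwartzMap

/-- the cut-offs -/
noncomputable def cut {d : ℕ} (χ : ℕ → E d → ℂ) : ℕ → E d → ℂ
  | 0 => fun _ => 1
  | k + 1 => χ k

lemma cut_mul {d : ℕ} (χ : ℕ → E d → ℂ)
    (χ1 : ∀ (k : ℕ) (ξ : E d), (∃ i, (2 : ℝ) ^ k * (3 / 4) ≤ |ξ i|) →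
      (∀ i, |ξ i| ≤ (2 : ℝ) ^ k * (9 / 4)) → χ k ξ = 1) (K : 𝓢(E d, ℂ))
    (h1 : ∀ ξ : E d, (∀ i, |ξ i| ≤ 1 / 4) → 𝓕 (K : E d → ℂ) ξ = 1)
    (h0 : ∀ ξ : E d, (∃ i, 3 / 4 ≤ |ξ i|) → 𝓕 (K : E d → ℂ) ξ = 0)
    (S : Set (Fin d → ℤ)) (f : 𝓢(E d, ℂ)) (hf : Spec S f) (c : ℕ) (ξ : E d) :
    psia K (cl S c) (fun _ => 1) ξ * (cut χ c ξ * 𝓕 (f : E d → ℂ) ξ) =
      psia K (cl S c) (fun _ => 1) ξ * 𝓕 (f : E d → ℂ) ξ := by
  by_cases hz : 𝓕 (f : E d → ℂ) ξ = 0
  · rw [hz, mul_zero]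
  · obtain ⟨m, hm, hmξ⟩ := hf ξ hz
    rw [psia_cl K h1 h0 S m hm ξ hmξ c]
    by_cases h : Nat.size (nm m) = c
    · rw [if_pos h]
      match c with
      | 0 => simp [cut]
      | k + 1 =>
        have := shell m k h ξ hmξ
        have e : cut χ (k + 1) ξ = 1 := χ1 k ξ this.1 this.2
        rw [e, one_mul]
    · rw [if_neg h, zero_mul, zero_mul]

/-- the partial sums of the cut-offs on the spectrum -/
lemma psum {d : ℕ} (K : 𝓢(E d, ℂ))
    (h1 : ∀ ξ : E d, (∀ i, |ξ i| ≤ 1 / 4) → 𝓕 (K : E d → ℂ) ξ = 1)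
    (h0 : ∀ ξ : E d, (∃ i, 3 / 4 ≤ |ξ i|) → 𝓕 (K : E d → ℂ) ξ = 0)
    (S : Set (Fin d → ℤ)) (m : Fin d → ℤ) (hm : m ∈ S) (ξ : E d)
    (hξ : ∀ i, |ξ i - m i| ≤ 1 / 4) (N : ℕ) :
    ∑ c ∈ Finset.range N, psia K (cl S c) (fun _ => 1) ξ =
      if Nat.size (nm m) < N then 1 else 0 := by
  have : ∀ c, psia K (cl S c) (fun _ => 1) ξ = if Nat.size (nm m) = c then 1 else 0 :=
    psia_cl K h1 h0 S m hm ξ hξ
  simp only [this]
  rw [Finset.sum_ite_eq]
  simp [Finset.mem_range]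

theorem fin6 (hLLG : S_LLG) (hEN : S_EN) (hYOU : S_YOU) (hLPK : S_LPK) (hBP : S_BP) (d : ℕ)
    (p θ s : ℝ) (hp : 2 ≤ p) (hθ : 0 ≤ θ) (hθ2 : θ < 2) (hs : θ < s) :
    ∃ C : ℝ, 0 < C ∧ ∀ (S : Set (Fin d → ℤ)) (A : ℝ), 0 ≤ A →
    (∀ R : ℕ, 1 ≤ R → LamSet p (A * (R : ℝ) ^ θ) {m | m ∈ S ∧ ∀ i, |m i| < R}) →
    ∀ (u₀ u₁ : 𝓢(E d, ℂ)), Spec S u₀ → Spec S u₁ → ∀ t : ℝ, 0 ≤ t → t ≤ 2 →
      ∫⁻ x : E d, ‖wave (𝓕 (u₀ : E d → ℂ)) (𝓕 (u₁ : E d → ℂ)) t x‖ₑ ^ p ≤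
        ENNReal.ofReal (C * A ^ p) *
          ((∫⁻ x : E d, ‖inv (fun ξ => bes s ξ * 𝓕 (u₀ : E d → ℂ) ξ) x‖ₑ ^ p) +
            ∫⁻ x : E d, ‖inv (fun ξ => bes (s - 1) ξ * 𝓕 (u₁ : E d → ℂ) ξ) x‖ₑ ^ p) := by
  obtain ⟨K, k1, k0⟩ := bump d
  obtain ⟨C4, hC4, h4⟩ := fin4g hEN hYOU d p hp K (hLLG d (d + 1) p hp K)
  obtain ⟨χ, χtg, χ1, hχ⟩ := hLPK d
  have hp0 : 0 < p := by linarith
  set s' : ℝ := (θ + min s 2) / 2 with hs'
  have hm1 : min s 2 ≤ s := min_le_left _ _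
  have hm2 : min s 2 ≤ 2 := min_le_right _ _
  have hm3 : θ < min s 2 := lt_min hs hθ2
  have a1 : θ < s' := by rw [hs']; linarith
  have a2 : s' < s := by rw [hs']; linarith
  have a3 : s' < 2 := by rw [hs']; linarith
  have a4 : 0 < s' := by linarith
  obtain ⟨C5, hC5, h5⟩ := hχ s' p a4 a3 (by linarith)
  obtain ⟨B0, hB0, b0⟩ := (hBP d (s - s') p (by linarith)).1 (by linarith)
  obtain ⟨B1, hB1, b1⟩ := (hBP d (1 + (s - s')) p (by linarith)).1 (by linarith)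
  choose B2 hB2 b2 using (hBP d (1 + (s - s')) p (by linarith)).2 (by linarith)
  obtain ⟨B3, hB3, b3⟩ := (hBP d s' p (by linarith)).1 a4
  set D : ℝ := B0 + B1 + ∑ j, B2 j with hD
  have hsum : 0 ≤ ∑ j, B2 j := Finset.sum_nonneg fun j _ => (hB2 j).le
  have hDpos : 0 < D := by positivity
  set r : ℝ := (2 : ℝ) ^ (-s' * p) with hr
  have hr0 : 0 < r := by positivity
  set C7 : ℝ := B3 + C5 * r⁻¹ with hC7
  have hC70 : 0 < C7 := by positivity
  set q : ℝ := (2 : ℝ) ^ (θ - s') with hq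
  have hq0 : 0 < q := by positivity
  have hq1 : q < 1 := Real.rpow_lt_one_of_one_lt_of_neg (by norm_num) (by linarith)
  set G0 : ℝ := C4 * ((d : ℝ) + 2) * C7 * D with hG0
  have hG00 : 0 < G0 := by positivity
  have h1q : 0 < 1 - q := by linarith
  refine ⟨G0 / (1 - q) ^ p, by positivity, ?_⟩
  intro S A hA hS u₀ u₁ s0 s1 t ht0 ht2
  obtain ⟨F₀, F₁, hh, hF0x, hF1x, hh0, hh1, hhj, e0, e1⟩ := data s s' u₀ u₁
  set X := ∫⁻ x : E d, ‖F₀ x‖ₑ ^ p with hX
  set Z := ∫⁻ x : E d, ‖F₁ x‖ₑ ^ p with hZ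
  -- the norms of the generators
  have hhb : ∀ k, ∫⁻ x : E d, ‖hh k x‖ₑ ^ p ≤ ENNReal.ofReal D * (X + Z) := by
    intro k
    have hB2le : ∀ j, B2 j ≤ ∑ j, B2 j := fun j =>
      Finset.single_le_sum (f := B2) (fun i _ => (hB2 i).le) (Finset.mem_univ j)
    match k with
    | Sum.inr true =>
      simp only [hh0]
      refine (b0 F₀).trans ?_
      gcongr
      · rw [hD]; linarith
      · exact le_self_add
    | Sum.inr false =>
      simp only [hh1]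
      refine (b1 F₁).trans ?_
      gcongr
      · rw [hD]; linarith
      · exact le_add_self
    | Sum.inl j =>
      simp only [hhj]
      refine (b2 j (-F₁)).trans ?_
      have e : ∫⁻ x : E d, ‖(-F₁ : 𝓢(E d, ℂ)) x‖ₑ ^ p = Z := by
        rw [hZ]
        refine lintegral_congr fun x => ?_
        rw [neg_apply, enorm_neg]
      rw [e]
      gcongr
      · rw [hD]; linarith [hB2le j]
      · exact le_add_self
  -- the localised generators
  have hpg : ∀ c : ℕ, ∃ pg : Fin d ⊕ Bool → 𝓢(E d, ℂ),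
      (∀ k ξ, 𝓕 (pg k : E d → ℂ) ξ = cut χ c ξ * (bes (-s') ξ * 𝓕 (hh k : E d → ℂ) ξ)) ∧
      ∀ k, ∫⁻ x : E d, ‖pg k x‖ₑ ^ p ≤ ENNReal.ofReal (C7 * r ^ c) *
        ∫⁻ x : E d, ‖hh k x‖ₑ ^ p := by
    intro c
    match c with
    | 0 =>
      choose pg p1 p2 using fun k => mult (bes (-s')) (bes_tg _) (hh k)
      refine ⟨pg, fun k ξ => ?_, fun k => ?_⟩
      · rw [p1]
        simp [cut]
      · simp only [p2]
        refine (b3 (hh k)).trans ?_
        gcongr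
        rw [pow_zero, mul_one, hC7]
        have : 0 ≤ C5 * r⁻¹ := by positivity
        linarith
    | k' + 1 =>
      choose pg p1 p2 using fun k => mult (fun ξ => χ k' ξ * bes (-s') ξ)
        ((χtg k').mul (bes_tg _)) (hh k)
      refine ⟨pg, fun k ξ => ?_, fun k => ?_⟩
      · rw [p1]
        simp only [cut]
        ring
      · refine (h5 k' (hh k) (pg k) fun ξ => by rw [p1]; ring).trans ?_
        refine mul_le_mul_left (ENNReal.ofReal_le_ofReal ?_) _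
        rw [hC7, pow_succ]
        have e : (B3 + C5 * r⁻¹) * (r ^ k' * r) = B3 * (r ^ k' * r) + C5 * r ^ k' := by
          field_simp
        rw [e]
        have : 0 ≤ B3 * (r ^ k' * r) := by positivity
        linarith
  choose pg pg1 pg2 using hpg
  -- the shells
  set w : ℕ → E d → ℂ := fun c x => wave
    (fun ξ => psia K (cl S c) (fun _ => 1) ξ * 𝓕 (u₀ : E d → ℂ) ξ)
    (fun ξ => psia K (cl S c) (fun _ => 1) ξ * 𝓕 (u₁ : E d → ℂ) ξ) t x with hw
  have hwi : ∀ c, Integrable fun ξ =>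
      cs t ξ * (psia K (cl S c) (fun _ => 1) ξ * 𝓕 (u₀ : E d → ℂ) ξ) +
      sn t ξ * (psia K (cl S c) (fun _ => 1) ξ * 𝓕 (u₁ : E d → ℂ) ξ) := fun c =>
    wint t ht0 ht2 _ _ (psia_int K _ _ _ (four_int u₀)) (psia_int K _ _ _ (four_int u₁))
  have hwc : ∀ c, Continuous (w c) := fun c => inv_cont _ (hwi c)
  have hwb : ∀ c, ∫⁻ x, ‖w c x‖ₑ ^ p ≤
      ENNReal.ofReal ((G0 ^ (1 / p) * A) ^ p * (q ^ p) ^ c) * (X + Z) := by
    intro c
    set f₁ : 𝓢(E d, ℂ) := pg c (Sum.inr false) + ∑ j, LineDeriv.lineDerivOp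
      (EuclideanSpace.single j (1 : ℝ)) (pg c (Sum.inl j)) with hf₁
    have hsl := sum_line (pg c (Sum.inr false)) (fun j => pg c (Sum.inl j))
    have hLam : Lam p (A * (((2 ^ c : ℕ) : ℝ)) ^ θ) (cl S c) (fun _ => 1) := by
      intro b
      have h := hS (2 ^ c) Nat.one_le_two_pow (cl S c) (by
        intro m hm
        have hm' := (mem_cl S c m).1 hm
        refine ⟨hm'.1, fun i => ?_⟩
        have := abs_lt_of_size m c hm'.2 i
        push_cast
        exact this) b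
      simpa only [one_mul] using h
    have hb := h4 (cl S c) (fun _ => 1) _ (by positivity) hLam (pg c (Sum.inr true)) f₁
      (pg c (Sum.inr false)) (fun j => pg c (Sum.inl j)) hsl t ht0 ht2
    have ef0 : (fun ξ => psia K (cl S c) (fun _ => 1) ξ *
        𝓕 (pg c (Sum.inr true) : E d → ℂ) ξ) =
        fun ξ => psia K (cl S c) (fun _ => 1) ξ * 𝓕 (u₀ : E d → ℂ) ξ := by
      funext ξ
      rw [pg1, ← e0]
      exact cut_mul χ χ1 K k1 k0 S u₀ s0 c ξ
    have ef1 : (fun ξ => psia K (cl S c) (fun _ => 1) ξ * 𝓕 (f₁ : E d → ℂ) ξ) =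
        fun ξ => psia K (cl S c) (fun _ => 1) ξ * 𝓕 (u₁ : E d → ℂ) ξ := by
      funext ξ
      have e2 : 𝓕 (f₁ : E d → ℂ) ξ = cut χ c ξ * 𝓕 (u₁ : E d → ℂ) ξ := by
        rw [fourier_gen f₁ (pg c (Sum.inr false)) (fun j => pg c (Sum.inl j)) hsl ξ]
        simp only [pg1]
        rw [e1 ξ, mul_add, Finset.mul_sum]
        congr 1
        refine Finset.sum_congr rfl fun j _ => ?_
        ring
      rw [e2]
      exact cut_mul χ χ1 K k1 k0 S u₁ s1 c ξ
    rw [ef0, ef1] at hb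
    refine hb.trans ?_
    have hone : ∀ k, ∫⁻ x : E d, ‖pg c k x‖ₑ ^ p ≤ ENNReal.ofReal (C7 * r ^ c * D) * (X + Z) := by
      intro k
      refine (pg2 c k).trans ?_
      calc ENNReal.ofReal (C7 * r ^ c) * ∫⁻ x : E d, ‖hh k x‖ₑ ^ p ≤
          ENNReal.ofReal (C7 * r ^ c) * (ENNReal.ofReal D * (X + Z)) := by
            gcongr
            exact hhb k
        _ = _ := by
          rw [← mul_assoc, ← ENNReal.ofReal_mul (by positivity)]
    calc ENNReal.ofReal (C4 * (A * (((2 ^ c : ℕ) : ℝ)) ^ θ) ^ p) *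
          ((∫⁻ x : E d, ‖pg c (Sum.inr true) x‖ₑ ^ p) + (∫⁻ x : E d, ‖pg c (Sum.inr false) x‖ₑ ^ p) +
            ∑ j, ∫⁻ x : E d, ‖pg c (Sum.inl j) x‖ₑ ^ p) ≤
        ENNReal.ofReal (C4 * (A * (((2 ^ c : ℕ) : ℝ)) ^ θ) ^ p) *
          (ENNReal.ofReal (C7 * r ^ c * D) * (X + Z) + ENNReal.ofReal (C7 * r ^ c * D) * (X + Z) +
            ∑ _j : Fin d, ENNReal.ofReal (C7 * r ^ c * D) * (X + Z)) := by
          gcongr
          · exact hone _
          · exact hone _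
          · exact hone _
      _ = ENNReal.ofReal (C4 * (A * (((2 ^ c : ℕ) : ℝ)) ^ θ) ^ p) *
          (ENNReal.ofReal ((d : ℝ) + 2) * (ENNReal.ofReal (C7 * r ^ c * D) * (X + Z))) := by
          congr 1
          rw [Finset.sum_const, Finset.card_univ, Fintype.card_fin, nsmul_eq_mul,
            ENNReal.ofReal_add (by positivity) (by norm_num), ENNReal.ofReal_natCast,
            ENNReal.ofReal_ofNat]
          ring
      _ = _ := by
          rw [← mul_assoc, ← mul_assoc, ← ENNReal.ofReal_mul (by positivity),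
            ← ENNReal.ofReal_mul (by positivity)]
          congr 2
          have z1 : (A * (((2 ^ c : ℕ) : ℝ)) ^ θ) ^ p = A ^ p * ((2 : ℝ) ^ (θ * p)) ^ c := by
            rw [Real.mul_rpow hA (by positivity)]
            congr 1
            push_cast
            rw [← Real.rpow_natCast 2 c, ← Real.rpow_mul (by norm_num),
              ← Real.rpow_mul (by norm_num), ← Real.rpow_natCast ((2 : ℝ) ^ (θ * p)) c,
              ← Real.rpow_mul (by norm_num)]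
            congr 1
            ring
          have z2 : (G0 ^ (1 / p) * A) ^ p = G0 * A ^ p := by
            rw [Real.mul_rpow (by positivity) hA, ← Real.rpow_mul hG00.le,
              one_div_mul_cancel hp0.ne', Real.rpow_one]
          have z3 : (q ^ p) ^ c = ((2 : ℝ) ^ (θ * p)) ^ c * r ^ c := by
            rw [← mul_pow]
            congr 1
            rw [hq, hr, ← Real.rpow_mul (by norm_num), ← Real.rpow_add (by norm_num)]
            congr 1
            ring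
          rw [z1, z2, z3, hG0]
          ring
  have hN := fun N => geo p (by linarith) w hwc (G0 ^ (1 / p) * A) q (by positivity) hq0.le hq1
    (X + Z) hwb N
  -- the partial sums
  set P : ℕ → E d → ℂ := fun N ξ => ∑ c ∈ Finset.range N, psia K (cl S c) (fun _ => 1) ξ with hP
  have hPs : ∀ N x, ∑ c ∈ Finset.range N, w c x =
      inv (fun ξ => cs t ξ * (P N ξ * 𝓕 (u₀ : E d → ℂ) ξ) +
        sn t ξ * (P N ξ * 𝓕 (u₁ : E d → ℂ) ξ)) x := by
    intro N x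
    have e : (fun ξ => cs t ξ * (P N ξ * 𝓕 (u₀ : E d → ℂ) ξ) +
        sn t ξ * (P N ξ * 𝓕 (u₁ : E d → ℂ) ξ)) = fun ξ => ∑ c ∈ Finset.range N,
        (cs t ξ * (psia K (cl S c) (fun _ => 1) ξ * 𝓕 (u₀ : E d → ℂ) ξ) +
      sn t ξ * (psia K (cl S c) (fun _ => 1) ξ * 𝓕 (u₁ : E d → ℂ) ξ)) := by
      funext ξ
      rw [Finset.sum_add_distrib, ← Finset.mul_sum, ← Finset.mul_sum, ← Finset.sum_mul,
        ← Finset.sum_mul]
    rw [e, inv_sum _ _ fun c _ => hwi c]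
    rfl
  have hlim : ∀ (f : 𝓢(E d, ℂ)), Spec S f → ∀ ξ, Filter.Tendsto
      (fun N => P N ξ * 𝓕 (f : E d → ℂ) ξ) Filter.atTop (nhds (𝓕 (f : E d → ℂ) ξ)) := by
    intro f hfS ξ
    by_cases hz : 𝓕 (f : E d → ℂ) ξ = 0
    · simp [hz]
    · obtain ⟨m, hm, hmξ⟩ := hfS ξ hz
      refine tendsto_const_nhds.congr' ?_
      filter_upwards [Filter.eventually_gt_atTop (Nat.size (nm m))] with N hmN
      rw [hP]
      simp only
      rw [psum K k1 k0 S m hm ξ hmξ N, if_pos hmN, one_mul]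
  have hbd : ∀ (f : 𝓢(E d, ℂ)), Spec S f → ∀ N ξ,
      ‖P N ξ * 𝓕 (f : E d → ℂ) ξ‖ ≤ ‖𝓕 (f : E d → ℂ) ξ‖ := by
    intro f hfS N ξ
    by_cases hz : 𝓕 (f : E d → ℂ) ξ = 0
    · simp [hz]
    · obtain ⟨m, hm, hmξ⟩ := hfS ξ hz
      rw [hP]
      simp only
      rw [psum K k1 k0 S m hm ξ hmξ N]
      by_cases hmN : Nat.size (nm m) < N
      · rw [if_pos hmN, one_mul]
      · rw [if_neg hmN, zero_mul, norm_zero]
        exact norm_nonneg _
  have hcs : ∀ ξ : E d, ‖cs t ξ‖ ≤ 2 := fun ξ => sym_le (Sum.inr true) t ht0 ht2 ξ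
  have hsn : ∀ ξ : E d, ‖sn t ξ‖ ≤ 2 := fun ξ => sym_le (Sum.inr false) t ht0 ht2 ξ
  have hPc : ∀ N, Continuous (P N) := fun N =>
    continuous_finset_sum _ fun c _ => psia_cont K _ _
  have hPi : ∀ N (f : 𝓢(E d, ℂ)), Spec S f → Integrable fun ξ => P N ξ * 𝓕 (f : E d → ℂ) ξ :=
    fun N f hf => (four_int f).norm.mono'
      ((hPc N).aestronglyMeasurable.mul (four_int f).1) (Filter.Eventually.of_forall (hbd f hf N))
  have hwl : ∀ x, Filter.Tendsto (fun N => ∑ c ∈ Finset.range N, w c x)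
      Filter.atTop (nhds (wave (𝓕 (u₀ : E d → ℂ)) (𝓕 (u₁ : E d → ℂ)) t x)) := by
    intro x
    simp only [hPs]
    unfold wave inv
    refine tendsto_integral_of_dominated_convergence
      (fun ξ => 2 * ‖𝓕 (u₀ : E d → ℂ) ξ‖ + 2 * ‖𝓕 (u₁ : E d → ℂ) ξ‖) ?_ ?_ ?_ ?_
    · intro N
      refine AEStronglyMeasurable.mul ?_
        (wint t ht0 ht2 _ _ (hPi N u₀ s0) (hPi N u₁ s1)).1
      refine Continuous.aestronglyMeasurable ?_
      fun_prop
    · exact ((four_int u₀).norm.const_mul 2).add ((four_int u₁).norm.const_mul 2)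
    · intro N
      refine Filter.Eventually.of_forall fun ξ => ?_
      rw [norm_mul, Complex.norm_exp_ofReal_mul_I, one_mul]
      refine (norm_add_le _ _).trans (add_le_add ?_ ?_)
      · rw [norm_mul]
        exact mul_le_mul (hcs ξ) (hbd u₀ s0 N ξ) (norm_nonneg _) (by norm_num)
      · rw [norm_mul]
        exact mul_le_mul (hsn ξ) (hbd u₁ s1 N ξ) (norm_nonneg _) (by norm_num)
    · refine Filter.Eventually.of_forall fun ξ => ?_
      exact ((((hlim u₀ s0 ξ).const_mul _).add ((hlim u₁ s1 ξ).const_mul _)).const_mul _)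
  have hmeas : ∀ N, Measurable fun x => ‖∑ c ∈ Finset.range N, w c x‖ₑ ^ p := by
    intro N
    have hc : Continuous fun x => ∑ c ∈ Finset.range N, w c x :=
      continuous_finset_sum _ fun c _ => hwc c
    exact (hc.measurable.enorm).pow_const p
  have hpt : ∀ x, ‖wave (𝓕 (u₀ : E d → ℂ)) (𝓕 (u₁ : E d → ℂ)) t x‖ₑ ^ p =
      Filter.liminf (fun N => ‖∑ c ∈ Finset.range N, w c x‖ₑ ^ p) Filter.atTop := by
    intro x
    have h1 := ((continuous_enorm.tendsto _).comp (hwl x))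
    have h2 := (ENNReal.continuous_rpow_const (y := p)).tendsto
      (‖wave (𝓕 (u₀ : E d → ℂ)) (𝓕 (u₁ : E d → ℂ)) t x‖ₑ)
    exact ((h2.comp h1).liminf_eq).symm
  rw [lintegral_congr hpt]
  refine (lintegral_liminf_le hmeas).trans ?_
  refine (Filter.liminf_le_liminf (Filter.Eventually.of_forall hN)).trans ?_
  rw [Filter.liminf_const]
  simp only [← hF0x, ← hF1x]
  refine le_of_eq ?_
  congr 2
  rw [Real.div_rpow (by positivity) h1q.le, Real.mul_rpow (by positivity) hA,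
    ← Real.rpow_mul hG00.le, one_div_mul_cancel hp0.ne', Real.rpow_one]
  ring

end Pool.Agent.N303.LS
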