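import Mathlib

/-!
# Project LS (helper303): local smoothing for randomised data (MP_ee74d2_an)
Definitions and statements of the parts.
-/

set_option autoImplicit false

namespace Pool.Agent.N303.LS

open MeasureTheory
open scoped ENNReal FourierTransform RealInnerProductSpace SchwartzMap

/-- `ℝ^d` -/
abbrev E (d : ℕ) : Type := EuclideanSpace ℝ (Fin d)

/-- the inverse Fourier transform `∫ exp(2πi x·ξ) F(ξ) dξ` -/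
noncomputable def inv {d : ℕ} (F : E d → ℂ) (x : E d) : ℂ :=
  ∫ ξ : E d, Complex.exp (((2 * Real.pi * ⟪x, ξ⟫ : ℝ) : ℂ) * Complex.I) * F ξ

/-- `cos(2πt|ξ|)` -/
noncomputable def cs {d : ℕ} (t : ℝ) (ξ : E d) : ℂ := ((Real.cos (2 * Real.pi * t * ‖ξ‖) : ℝ) : ℂ)

/-- `sin(2πt|ξ|)/(2π|ξ|)` -/
noncomputable def sn {d : ℕ} (t : ℝ) (ξ : E d) : ℂ :=
  ((Real.sin (2 * Real.pi * t * ‖ξ‖) / (2 * Real.pi * ‖ξ‖) : ℝ) : ℂ)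

/-- the symbols of the propagators: for `inr true` the solution with data `(g, 0)`, for `inr false`
the solution with data `(0, g)`, for `inl j` the solution with data `(0, ∂_j g)` -/
noncomputable def sym {d : ℕ} (k : Fin d ⊕ Bool) (t : ℝ) (ξ : E d) : ℂ :=
  match k with
  | Sum.inl j => ((2 * Real.pi * ξ j : ℝ) : ℂ) * Complex.I * sn t ξ
  | Sum.inr true => cs t ξ
  | Sum.inr false => sn t ξ

/-- the point `m` of `ℤ^d` -/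
noncomputable def pt {d : ℕ} (m : Fin d → ℤ) : E d := WithLp.toLp 2 fun i => (m i : ℝ)

/-- the symbol `∑_{m ∈ A} K^(ξ - m)`, `K^` the Fourier transform of `K` -/
noncomputable def psi {d : ℕ} (K : 𝓢(E d, ℂ)) (A : Finset (Fin d → ℤ)) (ξ : E d) : ℂ :=
  ∑ m ∈ A, 𝓕 (K : E d → ℂ) (ξ - pt m)

/-- the weight `(1 + |x|²)^(-M)` -/
noncomputable def W {d : ℕ} (M : ℕ) (x : E d) : ℝ := ((1 + ‖x‖ ^ 2) ^ M)⁻¹

/-- the local energy `∫ |h(x)|² (1 + |x - z|²)^(-M) dx` -/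
noncomputable def nrg {d : ℕ} (M : ℕ) (h : E d → ℂ) (z : E d) : ℝ≥0∞ :=
  ∫⁻ x : E d, ‖h x‖ₑ ^ (2 : ℝ) * ENNReal.ofReal (W M (x - z))

/-- bounded solutions of the acoustic system `∂_t φ = div A`, `∂_t A = ∇φ` -/
structure Aco {d : ℕ} (B : ℝ) (φ : ℝ → E d → ℂ) (A Dφ DA : Fin d → ℝ → E d → ℂ) : Prop where
  cφ : Continuous fun p : ℝ × E d => φ p.1 p.2
  cA : ∀ j, Continuous fun p : ℝ × E d => A j p.1 p.2
  cDφ : ∀ j, Continuous fun p : ℝ × E d => Dφ j p.1 p.2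
  cDA : ∀ j, Continuous fun p : ℝ × E d => DA j p.1 p.2
  bφ : ∀ t x, ‖φ t x‖ ≤ B
  bA : ∀ j t x, ‖A j t x‖ ≤ B
  bDφ : ∀ j t x, ‖Dφ j t x‖ ≤ B
  bDA : ∀ j t x, ‖DA j t x‖ ≤ B
  φt : ∀ t x, HasDerivAt (fun s => φ s x) (∑ j, DA j t x) t
  At : ∀ j t x, HasDerivAt (fun s => A j s x) (Dφ j t x) t
  φx : ∀ j t x, HasLineDerivAt ℝ (φ t) (Dφ j t x) x (EuclideanSpace.single j (1 : ℝ))
  Ax : ∀ j t x, HasLineDerivAt ℝ (A j t) (DA j t x) x (EuclideanSpace.single j (1 : ℝ))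

/-- (ENA) the propagators solve the acoustic system -/
def S_ENA : Prop :=
  ∀ (d : ℕ) (g : 𝓢(E d, ℂ)), ∃ (B : ℝ) (Dφ DA : Fin d → ℝ → E d → ℂ),
    Aco B (fun t => inv fun ξ => sym (Sum.inr true) t ξ * 𝓕 (g : E d → ℂ) ξ)
      (fun j t => inv fun ξ => sym (Sum.inl j) t ξ * 𝓕 (g : E d → ℂ) ξ) Dφ DA

/-- (ENB) weighted energy estimate for the acoustic system -/
def S_ENB : Prop :=
  ∀ (d M : ℕ), d < 2 * M → ∀ (B : ℝ) (φ : ℝ → E d → ℂ) (A Dφ DA : Fin d → ℝ → E d → ℂ),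
    Aco B φ A Dφ DA → ∀ (z : E d) (t : ℝ), 0 ≤ t →
      nrg M (φ t) z + ∑ j, nrg M (A j t) z ≤
        ENNReal.ofReal (Real.exp (M * t)) * (nrg M (φ 0) z + ∑ j, nrg M (A j 0) z)

/-- (EN) weighted energy estimate for the wave equation -/
def S_EN : Prop :=
  ∀ (d M : ℕ), d < 2 * M → ∃ C : ℝ, 0 < C ∧ ∀ (g : 𝓢(E d, ℂ)) (z : E d) (t : ℝ), 0 ≤ t → t ≤ 2 →
    ∀ k : Fin d ⊕ Bool,
      nrg M (inv fun ξ => sym k t ξ * 𝓕 (g : E d → ℂ) ξ) z ≤ ENNReal.ofReal C * nrg M g z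

/-- (ORT) almost orthogonality with weights -/
def S_ORT : Prop :=
  ∀ (d M : ℕ) (K : 𝓢(E d, ℂ)), HasCompactSupport (K : E d → ℂ) → ∃ C : ℝ, 0 < C ∧
    ∀ (ι : Type) [Fintype ι] (A : ι → Finset (Fin d → ℤ)), (∀ i j, i ≠ j → Disjoint (A i) (A j)) →
    ∀ F : E d → ℂ, Integrable F → ∀ z : E d,
      ∑ i, nrg M (inv fun ξ => psi K (A i) ξ * F ξ) z ≤ ENNReal.ofReal C * nrg M (inv F) z

/-- (CAR) pointwise bound by the local energy -/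
def S_CAR : Prop :=
  ∀ (d M : ℕ) (K : 𝓢(E d, ℂ)), HasCompactSupport (K : E d → ℂ) → ∃ C : ℝ, 0 < C ∧
    ∀ (ι : Type) [Fintype ι] (A : ι → Finset (Fin d → ℤ)) (V : ℕ),
    (∀ i j, i ≠ j → Disjoint (A i) (A j)) → (∀ i, (A i).card ≤ V) →
    ∀ F : E d → ℂ, Integrable F → ∀ x : E d,
      ∑ i, ‖inv (fun ξ => psi K (A i) ξ * F ξ) x‖ₑ ^ (2 : ℝ) ≤
        ENNReal.ofReal (C * V) * nrg M (inv F) x

/-- (PEE) powers of the local energy are slowly varying -/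
def S_PEE : Prop :=
  ∀ (d M : ℕ), d < 2 * M → ∀ q : ℝ, 0 ≤ q → ∃ (M' : ℕ) (C : ℝ), d < 2 * M' ∧ 0 < C ∧
    ∀ (g : 𝓢(E d, ℂ)) (x : E d),
      nrg M g x ^ q ≤ ENNReal.ofReal C *
        ∫⁻ z : E d, nrg M g z ^ q * ENNReal.ofReal (W M' (x - z)) ∧
      ∫⁻ z : E d, nrg M g z ^ q * ENNReal.ofReal (W M' (x - z)) ≤
        ENNReal.ofReal C * nrg M g x ^ q

/-- (YH) the inequalities of Hölder and Young -/
def S_YH : Prop :=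
  ∀ (d M : ℕ), d < 2 * M → ∀ p : ℝ, 2 ≤ p → ∃ C : ℝ, 0 < C ∧ ∀ g : 𝓢(E d, ℂ),
    ∫⁻ x : E d, ‖g x‖ₑ ^ (2 : ℝ) * nrg M g x ^ (p / 2 - 1) ≤
      ENNReal.ofReal C * ∫⁻ x : E d, ‖g x‖ₑ ^ p

/-- (KHI) Khintchine's inequality -/
def S_KHI : Prop :=
  ∀ p : ℝ, 2 ≤ p → ∃ C : ℝ, 0 < C ∧ ∀ (ι : Type) [Fintype ι] [DecidableEq ι] (a : ι → ℂ),
    ∑ ε : ι → Bool, ‖∑ i, (if ε i then a i else - a i)‖ ^ p ≤
      C * 2 ^ Fintype.card ι * (∑ i, ‖a i‖ ^ 2) ^ (p / 2)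

/-- (SQ) the square function estimate -/
def S_SQ : Prop :=
  ∀ (d : ℕ) (p : ℝ), 2 ≤ p → ∀ K : 𝓢(E d, ℂ), HasCompactSupport (K : E d → ℂ) →
    ∃ C : ℝ, 0 < C ∧ ∀ (ι : Type) [Fintype ι] (A : ι → Finset (Fin d → ℤ)) (V : ℕ),
    (∀ i j, i ≠ j → Disjoint (A i) (A j)) → (∀ i, (A i).card ≤ V) →
    ∀ (g : 𝓢(E d, ℂ)) (t : ℝ), 0 ≤ t → t ≤ 2 → ∀ k : Fin d ⊕ Bool,
      ∫⁻ x : E d, (∑ i, ‖inv (fun ξ => psi K (A i) ξ * (sym k t ξ * 𝓕 (g : E d → ℂ) ξ)) x‖ₑ ^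
        (2 : ℝ)) ^ (p / 2) ≤
        ENNReal.ofReal (C * (V : ℝ) ^ (p / 2 - 1)) * ∫⁻ x : E d, ‖g x‖ₑ ^ p

end Pool.Agent.N303.LS
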