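import Pool.Agent.N303.LS.Stm

/-!
# Project LS (helper303), second part: Bessel potentials
-/

set_option autoImplicit false

namespace Pool.Agent.N303.LS

open MeasureTheory
open scoped ENNReal FourierTransform RealInnerProductSpace SchwartzMap

/-- the symbol `(1 + 4π²|ξ|²)^(a/2)` of `(I - Δ)^(a/2)` -/
noncomputable def bes {d : ℕ} (a : ℝ) (ξ : E d) : ℂ :=
  (((1 + 4 * Real.pi ^ 2 * ‖ξ‖ ^ 2) ^ (a / 2) : ℝ) : ℂ)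

/-- (MUL) averages of translations are bounded on `L^p` -/
def S_MUL : Prop :=
  ∀ (d : ℕ) (Ω : Type) (_ : MeasurableSpace Ω) (μ : Measure Ω), SFinite μ →
    ∀ (y : Ω → E d) (κ : Ω → ℂ), Measurable y → Integrable κ μ →
    ∀ (g : 𝓢(E d, ℂ)) (p : ℝ), 1 ≤ p →
      ∫⁻ x : E d, ‖inv (fun ξ => (∫ q, Complex.exp (((-(2 * Real.pi * ⟪y q, ξ⟫) : ℝ) : ℂ) *
          Complex.I) * κ q ∂μ) * 𝓕 (g : E d → ℂ) ξ) x‖ₑ ^ p ≤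
        (∫⁻ q, ‖κ q‖ₑ ∂μ) ^ p * ∫⁻ x : E d, ‖g x‖ₑ ^ p

/-- (BES) the symbols `(1 + 4π²|ξ|²)^(-s/2)`, `s > 0`, and `2πi ξ_j (1 + 4π²|ξ|²)^(-s/2)`, `s > 1`,
are Fourier transforms of finite measures, given here by the parametrisation `y(u, z) = √u z`,
`u > 0`, `z ∈ ℝ^d` -/
def S_BES : Prop :=
  ∀ (d : ℕ) (s : ℝ),
    (0 < s → ∃ κ : ℝ × E d → ℂ, Integrable κ ∧ ∀ ξ : E d,
      bes (-s) ξ = ∫ q : ℝ × E d, Complex.exp (((-(2 * Real.pi *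
        ⟪Real.sqrt q.1 • q.2, ξ⟫) : ℝ) : ℂ) * Complex.I) * κ q) ∧
    (1 < s → ∀ j : Fin d, ∃ κ : ℝ × E d → ℂ, Integrable κ ∧ ∀ ξ : E d,
      ((2 * Real.pi * ξ j : ℝ) : ℂ) * Complex.I * bes (-s) ξ = ∫ q : ℝ × E d,
        Complex.exp (((-(2 * Real.pi * ⟪Real.sqrt q.1 • q.2, ξ⟫) : ℝ) : ℂ) * Complex.I) * κ q)

/-- (BP) the two consequences -/
def S_BP : Prop :=
  ∀ (d : ℕ) (s p : ℝ), 1 ≤ p →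
    (0 < s → ∃ C : ℝ, 0 < C ∧ ∀ g : 𝓢(E d, ℂ),
      ∫⁻ x : E d, ‖inv (fun ξ => bes (-s) ξ * 𝓕 (g : E d → ℂ) ξ) x‖ₑ ^ p ≤
        ENNReal.ofReal C * ∫⁻ x : E d, ‖g x‖ₑ ^ p) ∧
    (1 < s → ∀ j : Fin d, ∃ C : ℝ, 0 < C ∧ ∀ g : 𝓢(E d, ℂ),
      ∫⁻ x : E d, ‖inv (fun ξ => ((2 * Real.pi * ξ j : ℝ) : ℂ) * Complex.I * bes (-s) ξ *
        𝓕 (g : E d → ℂ) ξ) x‖ₑ ^ p ≤ ENNReal.ofReal C * ∫⁻ x : E d, ‖g x‖ₑ ^ p)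

end Pool.Agent.N303.LS
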