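import Pool.Agent.N303.LS.Stm2

/-!
# Project LM (helper303): the maximal function in time of the randomised wave (MP_ee74d2_an)
-/

set_option autoImplicit false

namespace Pool.Agent.N303.LS

open MeasureTheory
open scoped ENNReal FourierTransform RealInnerProductSpace SchwartzMap

/-- the piece with the symbol `psi K A` of the solution of type `k` with generator `g` -/
noncomputable def pc {d : ℕ} (K : 𝓢(E d, ℂ)) (A : Finset (Fin d → ℤ)) (k : Fin d ⊕ Bool)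
    (g : 𝓢(E d, ℂ)) (t : ℝ) (x : E d) : ℂ :=
  inv (fun ξ => psi K A ξ * (sym k t ξ * 𝓕 (g : E d → ℂ) ξ)) x

/-- `∂_j g` -/
noncomputable def dj {d : ℕ} (j : Fin d) (g : 𝓢(E d, ℂ)) : 𝓢(E d, ℂ) :=
  LineDeriv.lineDerivOp (EuclideanSpace.single j (1 : ℝ)) g

/-- the signed sum of the pieces -/
noncomputable def sg {d : ℕ} {ι : Type} [Fintype ι] (K : 𝓢(E d, ℂ)) (A : ι → Finset (Fin d → ℤ))
    (k : Fin d ⊕ Bool) (g : 𝓢(E d, ℂ)) (ε : ι → Bool) (t : ℝ) (x : E d) : ℂ :=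
  ∑ i, (if ε i then pc K (A i) k g t x else - pc K (A i) k g t x)

/-- its maximal function in time -/
noncomputable def sp {d : ℕ} {ι : Type} [Fintype ι] (K : 𝓢(E d, ℂ)) (A : ι → Finset (Fin d → ℤ))
    (k : Fin d ⊕ Bool) (g : 𝓢(E d, ℂ)) (ε : ι → Bool) (x : E d) : ℝ≥0∞ :=
  ⨆ t ∈ Set.Icc (0 : ℝ) 2, ‖sg K A k g ε t x‖ₑ

/-- (DT) the derivatives in time -/
def S_DT : Prop :=
  ∀ (d : ℕ), 0 < d → ∀ (K : 𝓢(E d, ℂ)) (A : Finset (Fin d → ℤ)) (g : 𝓢(E d, ℂ)) (x : E d) (t : ℝ),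
    HasDerivAt (fun s => pc K A (Sum.inr true) g s x) (∑ j, pc K A (Sum.inl j) (dj j g) t x) t ∧
    HasDerivAt (fun s => pc K A (Sum.inr false) g s x) (pc K A (Sum.inr true) g t x) t ∧
    ∀ j : Fin d, HasDerivAt (fun s => pc K A (Sum.inl j) g s x)
      (pc K A (Sum.inr true) (dj j g) t x) t

/-- (SOB) Sobolev's inequality in time -/
def S_SOB : Prop :=
  ∀ q : ℝ, 2 ≤ q → ∃ C : ℝ, 0 < C ∧ ∀ F F' : ℝ → ℂ, Continuous F' →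
    (∀ t, HasDerivAt F (F' t) t) →
    (⨆ t ∈ Set.Icc (0 : ℝ) 2, ‖F t‖ₑ) ^ q ≤ ENNReal.ofReal C *
      ((∫⁻ t in Set.Icc (0 : ℝ) 2, ‖F t‖ₑ ^ q) +
        ∫⁻ t in Set.Icc (0 : ℝ) 2, ‖F t‖ₑ ^ (q - 1) * ‖F' t‖ₑ)

/-- (MAX) the pointwise bound of the mean of the maximal functions -/
def S_MAX : Prop :=
  ∀ (d M : ℕ), 0 < d → d < 2 * M → ∀ q : ℝ, 2 ≤ q → ∀ K : 𝓢(E d, ℂ),
    HasCompactSupport (K : E d → ℂ) → ∃ C : ℝ, 0 < C ∧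
    ∀ (ι : Type) [Fintype ι] [DecidableEq ι] (A : ι → Finset (Fin d → ℤ)) (V : ℕ),
    (∀ i j, i ≠ j → Disjoint (A i) (A j)) → (∀ i, (A i).card ≤ V) →
    ∀ (k : Fin d ⊕ Bool) (g : 𝓢(E d, ℂ)) (x : E d),
      ∑ ε : ι → Bool, sp K A k g ε x ^ q ≤
        ENNReal.ofReal (C * 2 ^ Fintype.card ι * (V : ℝ) ^ (q / 2)) *
          (nrg M g x ^ ((q - 1) / 2) * (nrg M g x + ∑ j, nrg M (dj j g) x) ^ ((1 : ℝ) / 2))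

/-- (YOU) Young's inequality for the local energy -/
def S_YOU : Prop :=
  ∀ (d M : ℕ), d < 2 * M → ∀ p : ℝ, 2 ≤ p → ∃ C : ℝ, 0 < C ∧ ∀ g : 𝓢(E d, ℂ),
    ∫⁻ x : E d, nrg M g x ^ (p / 2) ≤ ENNReal.ofReal C * ∫⁻ x : E d, ‖g x‖ₑ ^ p

/-- (HN) the heat flow and the local energy -/
def S_HN : Prop :=
  ∀ (d M : ℕ), ∃ C : ℝ, 0 < C ∧ ∀ (g h : 𝓢(E d, ℂ)) (v : ℝ), 0 < v →
    (∀ ξ, 𝓕 (h : E d → ℂ) ξ = ((Real.exp (-(4 * Real.pi ^ 2 * v * ‖ξ‖ ^ 2)) : ℝ) : ℂ) *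
      𝓕 (g : E d → ℂ) ξ) → ∀ x : E d,
    nrg M h x ≤ ENNReal.ofReal (C * (1 + v) ^ M) * nrg M g x ∧
    (∀ j, nrg M (dj j h) x ≤ ENNReal.ofReal (C * (1 + v) ^ M * v⁻¹) * nrg M g x) ∧
    ∀ i j, nrg M (dj i (dj j h)) x ≤ ENNReal.ofReal (C * (1 + v) ^ M * (v ^ 2)⁻¹) * nrg M g x

/-- (HRR) the representation of the pieces by the heat flow -/
def S_HRR : Prop :=
  ∀ (d : ℕ), 0 < d → ∀ s : ℝ, 0 < s → ∀ K : 𝓢(E d, ℂ), HasCompactSupport (K : E d → ℂ) →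
    ∀ (ι : Type) [Fintype ι] (A : ι → Finset (Fin d → ℤ)) (k : Fin d ⊕ Bool) (g G : 𝓢(E d, ℂ))
      (h : ℝ → 𝓢(E d, ℂ)), (∀ v : ℝ, 0 < v → ∀ ξ, 𝓕 (h v : E d → ℂ) ξ =
        ((Real.exp (-(4 * Real.pi ^ 2 * v * ‖ξ‖ ^ 2)) : ℝ) : ℂ) * 𝓕 (G : E d → ℂ) ξ) →
    ∀ (ε : ι → Bool) (x : E d),
      ((∀ ξ, 𝓕 (g : E d → ℂ) ξ = bes (-s) ξ * 𝓕 (G : E d → ℂ) ξ) →
        AEMeasurable (fun v => sp K A k (h v) ε x) (volume.restrict (Set.Ioi (0 : ℝ))) ∧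
        sp K A k g ε x ≤ ∫⁻ v in Set.Ioi (0 : ℝ),
          ENNReal.ofReal (Real.exp (-v) * v ^ (s / 2 - 1) / Real.Gamma (s / 2)) *
            sp K A k (h v) ε x) ∧
      ∀ j : Fin d, (∀ ξ, 𝓕 (g : E d → ℂ) ξ = ((2 * Real.pi * ξ j : ℝ) : ℂ) * Complex.I *
          bes (-(1 + s)) ξ * 𝓕 (G : E d → ℂ) ξ) →
        AEMeasurable (fun v => sp K A k (dj j (h v)) ε x) (volume.restrict (Set.Ioi (0 : ℝ))) ∧
        sp K A k g ε x ≤ ∫⁻ v in Set.Ioi (0 : ℝ),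
          ENNReal.ofReal (Real.exp (-v) * v ^ ((1 + s) / 2 - 1) / Real.Gamma ((1 + s) / 2)) *
            sp K A k (dj j (h v)) ε x

/-- (HR) the maximal functions for data in Sobolev spaces: first for `g = (I - Δ)^(-s/2) G`, `s > 0`,
then for `g = ∂_j (I - Δ)^(-(1+s)/2) G` -/
def S_HR : Prop :=
  ∀ (d M : ℕ), 0 < d → d < 2 * M → ∀ s q : ℝ, 0 < s → 2 ≤ q → 1 < s * q → ∀ K : 𝓢(E d, ℂ),
    HasCompactSupport (K : E d → ℂ) → ∃ C : ℝ, 0 < C ∧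
    ∀ (ι : Type) [Fintype ι] [DecidableEq ι] (A : ι → Finset (Fin d → ℤ)) (V : ℕ),
    (∀ i j, i ≠ j → Disjoint (A i) (A j)) → (∀ i, (A i).card ≤ V) →
    ∀ (k : Fin d ⊕ Bool) (g G : 𝓢(E d, ℂ)),
      ((∀ ξ, 𝓕 (g : E d → ℂ) ξ = bes (-s) ξ * 𝓕 (G : E d → ℂ) ξ) ∨
        ∃ j : Fin d, ∀ ξ, 𝓕 (g : E d → ℂ) ξ = ((2 * Real.pi * ξ j : ℝ) : ℂ) * Complex.I *
          bes (-(1 + s)) ξ * 𝓕 (G : E d → ℂ) ξ) → ∀ x : E d,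
      ∑ ε : ι → Bool, sp K A k g ε x ^ q ≤
        ENNReal.ofReal (C * 2 ^ Fintype.card ι * (V : ℝ) ^ (q / 2)) * nrg M G x ^ (q / 2)

end Pool.Agent.N303.LS
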