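import Pool.Agent.N303.LS.Stm3

/-!
# Project LT (helper303): transference for the wave equation (MP_ee74d2_an): multipliers from
`L²(𝕋^d)` to `L^p(𝕋^d)` and the wave equation on `L^p(ℝ^d)`
-/

set_option autoImplicit false

namespace Pool.Agent.N303.LS

open MeasureTheory
open scoped ENNReal FourierTransform RealInnerProductSpace SchwartzMap

/-- the symbol `∑_{m ∈ S} a_m K^(ξ - m)` -/
noncomputable def psia {d : ℕ} (K : 𝓢(E d, ℂ)) (S : Finset (Fin d → ℤ)) (a : (Fin d → ℤ) → ℂ)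
    (ξ : E d) : ℂ :=
  ∑ m ∈ S, a m * 𝓕 (K : E d → ℂ) (ξ - pt m)

/-- `∫_{[0,1]^d} |∑_{m ∈ S} a_m c_m exp(2πi m·x)|^p dx ≤ Λ^p (∑_{m ∈ S} |c_m|²)^(p/2)` for all `c` -/
def Lam {d : ℕ} (p Λ : ℝ) (S : Finset (Fin d → ℤ)) (a : (Fin d → ℤ) → ℂ) : Prop :=
  ∀ c : (Fin d → ℤ) → ℂ,
    ∫⁻ x in {x : E d | ∀ i, x i ∈ Set.Ico (0 : ℝ) 1}, ‖∑ m ∈ S, a m * c m *
      Complex.exp (((2 * Real.pi * ⟪x, pt m⟫ : ℝ) : ℂ) * Complex.I)‖ₑ ^ p ≤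
      ENNReal.ofReal (Λ ^ p) * (∑ m ∈ S, ‖c m‖ₑ ^ (2 : ℝ)) ^ (p / 2)

/-- (LL) the local estimate -/
def S_LL : Prop :=
  ∀ (d M : ℕ) (p : ℝ), 2 ≤ p → ∀ K : 𝓢(E d, ℂ), HasCompactSupport (K : E d → ℂ) →
    ∃ C : ℝ, 0 < C ∧ ∀ (S : Finset (Fin d → ℤ)) (a : (Fin d → ℤ) → ℂ) (Λ : ℝ), 0 ≤ Λ →
      Lam p Λ S a → ∀ F : E d → ℂ, Integrable F → ∀ z : E d,
      ∫⁻ x in {x : E d | ∀ i, |x i - z i| ≤ 1}, ‖inv (fun ξ => psia K S a ξ * F ξ) x‖ₑ ^ p ≤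
        ENNReal.ofReal (C * Λ ^ p) * nrg M (inv F) z ^ (p / 2)

end Pool.Agent.N303.LS
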