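import Pool.Agent.N303.LS.Stm4

/-!
# Project LT (helper303), second part: cut-offs with general Schwartz kernels
-/

set_option autoImplicit false

namespace Pool.Agent.N303.LS

open MeasureTheory
open scoped ENNReal FourierTransform RealInnerProductSpace SchwartzMap

/-- (PD) polynomial decomposition -/
def S_PD : Prop :=
  ∀ (d B : ℕ) (K : 𝓢(E d, ℂ)), ∃ (n : ℕ) (P : Fin n → E d → ℂ) (k : Fin n → 𝓢(E d, ℂ)),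
    (∀ i, Continuous (P i)) ∧ ∀ x v : E d,
      K v * (((1 + ‖x - v‖ ^ 2) ^ B : ℝ) : ℂ) = ∑ i, P i x * k i v

/-- (BW) Bessel's inequality on `ℝ^d` with weights -/
def S_BW : Prop :=
  ∀ (d M : ℕ), ∃ (B : ℕ) (C : ℝ), 0 < C ∧ d < 2 * B ∧ ∀ h : E d → ℂ, Continuous h →
    (∃ b : ℝ, ∀ x, ‖h x‖ ≤ b) → ∀ (z ξ : E d) (S : Finset (Fin d → ℤ)),
      ∑ m ∈ S, ‖∫ u : E d, h u * (((1 + ‖u - z‖ ^ 2) ^ B : ℝ) : ℂ)⁻¹ *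
        Complex.exp (((-(2 * Real.pi * ⟪u, ξ + pt m⟫) : ℝ) : ℂ) * Complex.I)‖ₑ ^ (2 : ℝ) ≤
        ENNReal.ofReal C * nrg M h z

/-- (LLG) the local estimate for general `K` -/
def S_LLG : Prop :=
  ∀ (d M : ℕ) (p : ℝ), 2 ≤ p → ∀ K : 𝓢(E d, ℂ),
    ∃ C : ℝ, 0 < C ∧ ∀ (S : Finset (Fin d → ℤ)) (a : (Fin d → ℤ) → ℂ) (Λ : ℝ), 0 ≤ Λ →
      Lam p Λ S a → ∀ F : E d → ℂ, Integrable F → ∀ z : E d,
      ∫⁻ x in {x : E d | ∀ i, |x i - z i| ≤ 1}, ‖inv (fun ξ => psia K S a ξ * F ξ) x‖ₑ ^ p ≤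
        ENNReal.ofReal (C * Λ ^ p) * nrg M (inv F) z ^ (p / 2)

end Pool.Agent.N303.LS
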