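import Pool.Agent.N303.LS.Stm5

/-!
# Project LG (helper303): spectra with growing `Λ(p)` constants (MP_ee74d2_an)
-/

set_option autoImplicit false

namespace Pool.Agent.N303.LS

open MeasureTheory
open scoped ENNReal FourierTransform RealInnerProductSpace SchwartzMap

/-- (LPA) a class of multipliers -/
def S_LPA : Prop :=
  ∀ (d : ℕ) (K G : 𝓢(E d, ℂ)) (w : ℝ → ℝ) (l : ℝ), Integrable w → ∀ p : ℝ, 1 ≤ p →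
    ∀ g : 𝓢(E d, ℂ),
      ∫⁻ x : E d, ‖inv (fun ξ => (𝓕 (K : E d → ℂ) (l • ξ) *
        ∫ v : ℝ, ((w v : ℝ) : ℂ) * 𝓕 (G : E d → ℂ) (Real.sqrt v • ξ)) * 𝓕 (g : E d → ℂ) ξ) x‖ₑ ^ p ≤
        ((∫⁻ v : ℝ, ‖w v‖ₑ) * (∫⁻ x : E d, ‖K x‖ₑ) * ∫⁻ x : E d, ‖G x‖ₑ) ^ p *
          ∫⁻ x : E d, ‖g x‖ₑ ^ p

/-- (LPK) Bessel potentials on dyadic shells -/
def S_LPK : Prop :=
  ∀ d : ℕ, ∃ χ : ℕ → E d → ℂ, (∀ k, (χ k).HasTemperateGrowth) ∧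
    (∀ (k : ℕ) (ξ : E d), (∃ i, (2 : ℝ) ^ k * (3 / 4) ≤ |ξ i|) →
      (∀ i, |ξ i| ≤ (2 : ℝ) ^ k * (9 / 4)) → χ k ξ = 1) ∧
    ∀ s p : ℝ, 0 < s → s < 2 → 1 ≤ p → ∃ C : ℝ, 0 < C ∧ ∀ (k : ℕ) (g h : 𝓢(E d, ℂ)),
      (∀ ξ, 𝓕 (h : E d → ℂ) ξ = χ k ξ * (bes (-s) ξ * 𝓕 (g : E d → ℂ) ξ)) →
      ∫⁻ x : E d, ‖h x‖ₑ ^ p ≤ ENNReal.ofReal (C * ((2 : ℝ) ^ (-s * p)) ^ k) *
        ∫⁻ x : E d, ‖g x‖ₑ ^ p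

end Pool.Agent.N303.LS
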